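import Pool.Agent.U26Z.MX.Max
import Pool.Agent.H902R3.Task469C

set_option autoImplicit false

/-!
# The tails of the maximal density of the primes
-/

namespace Pool.Agent.U26Z.MX

open Finset Filter Topology

/-- the number `π(x, H)` of the primes in `(x, x + H]` -/
noncomputable def primesIn (x H : ℝ) : ℕ := ((Ioc ⌊x⌋₊ ⌊x + H⌋₊).filter Nat.Prime).card

/-- `π(x, H) log x / H` -/
noncomputable def density (x H : ℝ) : ℝ := primesIn x H * Real.log x / H

theorem primesIn_nat (n : ℕ) {H : ℝ} (hH : 0 ≤ H) : primesIn n H = pc n ⌊H⌋₊ := by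
  unfold primesIn pc
  rw [Nat.floor_natCast, add_comm (n : ℝ) H, Nat.floor_add_natCast hH, add_comm ⌊H⌋₊ n]

open Classical in
/-- the points with a large density at some length -/
noncomputable def Ex (K u : ℝ) (X Y : ℕ) : Finset ℕ :=
  (Ioc X (X + Y)).filter (fun n => ∃ H : ℝ, K * Real.log n ≤ H ∧ u ≤ density n H)

open Classical in
theorem Ex_card_le (K u : ℝ) (X Y : ℕ) : ((Ex K u X Y).card : ℝ) ≤ Y := by
  have h1 : (Ex K u X Y).card ≤ (Ioc X (X + Y)).card := by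
    unfold Ex
    exact Finset.card_filter_le _ _
  rw [Nat.card_Ioc, Nat.add_sub_cancel_left] at h1
  exact_mod_cast h1

open Classical in
/-- reduction to the lengths below `Y` -/
theorem reduce {θ K τ : ℝ} (hθ : 0 < θ) (hK : 0 < K) (hτ : 0 < τ) (hτ1 : τ ≤ 1) :
    ∃ X₀ : ℕ, ∀ X : ℕ, X₀ ≤ X → ∀ Y : ℕ,
    (X : ℝ) ^ θ ≤ Y → Y ≤ X → ∀ u : ℝ, 3 / θ < u →
    Ex (2 * K / τ) u X Y ⊆ (Ioc X (X + Y)).filter (fun n => ∃ H : ℕ, 1 ≤ H ∧ H ≤ Y ∧
      (u * K / (1 + τ) ^ 3) * ((H : ℝ) + ⌊K * Real.log X⌋₊) ≤ (⌊K * Real.log X⌋₊ : ℝ) * pc n H) := by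
  obtain ⟨Y₀, _, hbt⟩ := Pool.Agent.H902R3.C469.bt2 (1 / 2) (by norm_num)
  have tN : Tendsto (fun X : ℕ => (X : ℝ)) atTop atTop := tendsto_natCast_atTop_atTop
  have tL : Tendsto (fun X : ℕ => Real.log (X : ℝ)) atTop atTop := Real.tendsto_log_atTop.comp tN
  have hev1 : ∀ᶠ X : ℕ in atTop, ((Y₀ : ℝ)) ≤ (X : ℝ) ^ θ := ((tendsto_rpow_atTop hθ).comp tN).eventually_ge_atTop _
  have hev2 : ∀ᶠ X : ℕ in atTop, max (max 5 (Real.log 2 / τ)) (max ((1 + τ) / (K * τ)) (τ / K)) ≤ Real.log X :=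
    tL.eventually_ge_atTop _
  obtain ⟨X₁, hX₁⟩ := eventually_atTop.1 (hev1.and hev2)
  refine ⟨X₁ + 2, fun X hX Y hY1 hY2 u hu => ?_⟩
  obtain ⟨h1, h2⟩ := hX₁ X (by omega)
  have hX0 : (0 : ℝ) < X := by exact_mod_cast (by omega : 0 < X)
  obtain ⟨L, hL⟩ : ∃ L, L = Real.log (X : ℝ) := ⟨_, rfl⟩
  rw [← hL] at h2 ⊢
  have h5L : 5 ≤ L := (le_max_left _ _).trans ((le_max_left _ _).trans h2)
  have h2L : Real.log 2 / τ ≤ L := (le_max_right _ _).trans ((le_max_left _ _).trans h2)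
  have h3L : (1 + τ) / (K * τ) ≤ L := (le_max_left _ _).trans ((le_max_right _ _).trans h2)
  have h4L : τ / K ≤ L := (le_max_right _ _).trans ((le_max_right _ _).trans h2)
  have hL0 : 0 < L := by linarith
  rw [div_le_iff₀ hτ] at h2L
  rw [div_le_iff₀ (by positivity)] at h3L
  rw [div_le_iff₀ hK] at h4L
  intro n hn
  unfold Ex at hn
  rw [mem_filter, mem_Ioc] at hn
  obtain ⟨⟨hn1, hn2⟩, H, hHK, hdens⟩ := hn
  rw [mem_filter, mem_Ioc]
  refine ⟨⟨hn1, hn2⟩, ?_⟩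
  have hn0 : (0 : ℝ) < n := by exact_mod_cast (by omega : 0 < n)
  have hXn : (X : ℝ) ≤ n := by exact_mod_cast hn1.le
  have hn2X : (n : ℝ) ≤ 2 * X := by exact_mod_cast (by omega : n ≤ 2 * X)
  have hlogn1 : L ≤ Real.log n := by rw [hL]; exact Real.log_le_log hX0 hXn
  have hlogn2 : Real.log n ≤ Real.log 2 + L := by
    rw [hL, ← Real.log_mul (by norm_num) hX0.ne']
    exact Real.log_le_log hn0 hn2X
  have hlog2 : Real.log 2 ≤ 1 := by
    have := Real.log_two_lt_d9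
    linarith
  have hlogn0 : 0 < Real.log n := by linarith
  have hH0 : 0 < H := lt_of_lt_of_le (by positivity) hHK
  have hfl : (⌊H⌋₊ : ℝ) ≤ H := Nat.floor_le hH0.le
  have hfl2 : H < ⌊H⌋₊ + 1 := Nat.lt_floor_add_one H
  -- the length is at least `2 K L / τ - 1 ≥ K L / τ`
  have hHlow : K * L / τ ≤ ⌊H⌋₊ := by
    have h6 : 2 * K / τ * L ≤ H := by
      refine le_trans ?_ hHK
      gcongr
    have h7 : 1 ≤ K * L / τ := by
      rw [le_div_iff₀ hτ]
      linarith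
    have h8 : 2 * K / τ * L = K * L / τ + K * L / τ := by ring
    linarith
  unfold density at hdens
  rw [primesIn_nat n hH0.le, le_div_iff₀ hH0] at hdens
  obtain ⟨H', hH'⟩ : ∃ H', H' = ⌊H⌋₊ := ⟨_, rfl⟩
  rw [← hH'] at hfl hfl2 hHlow hdens
  have hH'1 : 1 ≤ H' := by
    have h7 : 1 ≤ K * L / τ := by
      rw [le_div_iff₀ hτ]
      linarith
    have : (1 : ℝ) ≤ H' := h7.trans hHlow
    exact_mod_cast this
  have hH'0 : (0 : ℝ) < H' := by exact_mod_cast hH'1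
  have hu0 : 0 < u := lt_trans (by positivity) hu
  refine ⟨H', hH'1, ?_, ?_⟩
  · -- the Brun-Titchmarsh inequality
    by_contra hcon
    push Not at hcon
    have hYH : (Y : ℝ) ≤ H' := by exact_mod_cast hcon.le
    have h6 : Y₀ ≤ H' := by
      have : (Y₀ : ℝ) ≤ H' := h1.trans (hY1.trans hYH)
      exact_mod_cast this
    have h7 := hbt n H' h6
    have hlogH : θ * L ≤ Real.log H' := by
      rw [hL, ← Real.log_rpow hX0]
      exact Real.log_le_log (by positivity) (hY1.trans hYH)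
    have h8 : (pc n H' : ℝ) ≤ 5 / 2 * H' / (θ * L) := by
      have h9 : (pc n H' : ℝ) ≤ (2 + 1 / 2) * H' / Real.log H' := h7
      refine h9.trans ?_
      have e : (2 : ℝ) + 1 / 2 = 5 / 2 := by norm_num
      rw [e]
      apply div_le_div_of_nonneg_left (by positivity) (by positivity) hlogH
    have h9 : Real.log n ≤ 6 / 5 * L := by linarith
    have h10 : u * H ≤ 5 / 2 * H' / (θ * L) * (6 / 5 * L) := by
      refine hdens.trans ?_
      apply mul_le_mul h8 h9 (by linarith) (by positivity)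
    have h11 : 5 / 2 * (H' : ℝ) / (θ * L) * (6 / 5 * L) = 3 / θ * H' := by
      field_simp
      ring
    rw [h11] at h10
    have h12 : 3 / θ * H' ≤ 3 / θ * H := by gcongr
    have h13 : u * H ≤ 3 / θ * H := h10.trans h12
    have := le_of_mul_le_mul_right h13 hH0
    linarith
  · obtain ⟨H₀, hH₀⟩ : ∃ H₀, H₀ = ⌊K * L⌋₊ := ⟨_, rfl⟩
    rw [← hH₀]
    have h6 : (H₀ : ℝ) ≤ K * L := by rw [hH₀]; exact Nat.floor_le (by positivity)
    have h7 : K * L < H₀ + 1 := by rw [hH₀]; exact Nat.lt_floor_add_one _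
    have h8 : K * L / (1 + τ) ≤ H₀ := by
      rw [div_le_iff₀ (by linarith)]
      have : L * (K * τ) = K * L * τ := by ring
      nlinarith
    have h9 : (H' : ℝ) + H₀ ≤ (1 + τ) * H' := by
      have : (H₀ : ℝ) ≤ τ * H' := by
        rw [div_le_iff₀ hτ] at hHlow
        linarith
      linarith
    have h10 : u * H' ≤ pc n H' * ((1 + τ) * L) := by
      calc u * H' ≤ u * H := by gcongr
        _ ≤ pc n H' * Real.log n := hdens
        _ ≤ pc n H' * ((1 + τ) * L) := by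
            apply mul_le_mul_of_nonneg_left _ (Nat.cast_nonneg _)
            linarith
    calc u * K / (1 + τ) ^ 3 * ((H' : ℝ) + H₀) ≤ u * K / (1 + τ) ^ 3 * ((1 + τ) * H') := by gcongr
      _ = (K * L / (1 + τ)) * (u * H' / ((1 + τ) * L)) := by
          have : (1 : ℝ) + τ ≠ 0 := by linarith
          field_simp
      _ ≤ H₀ * (pc n H') := by
          apply mul_le_mul h8 _ (by positivity) (Nat.cast_nonneg _)
          rw [div_le_iff₀ (by positivity)]
          exact h10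

theorem fact_le : ∀ k : ℕ, 1 ≤ k → (k.factorial : ℝ) ≤ k * (k : ℝ) ^ k * Real.exp (1 - k) := by
  intro k hk
  induction k, hk using Nat.le_induction with
  | base => simp
  | succ k hk ih =>
    have hk0 : (0 : ℝ) < k := by exact_mod_cast hk
    have h1 : Real.exp 1 * (k : ℝ) ^ (k + 1) ≤ ((k : ℝ) + 1) ^ (k + 1) := by
      have h2 : 1 / ((k : ℝ) + 1) ≤ Real.log (((k : ℝ) + 1) / k) := by
        have h3 := Real.one_sub_inv_le_log_of_pos (show 0 < ((k : ℝ) + 1) / k by positivity)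
        have e : 1 - (((k : ℝ) + 1) / k)⁻¹ = 1 / ((k : ℝ) + 1) := by
          field_simp
          ring
        rwa [e] at h3
      have h4 : 1 ≤ ((k + 1 : ℕ) : ℝ) * Real.log (((k : ℝ) + 1) / k) := by
        push_cast
        rw [div_le_iff₀ (by positivity)] at h2
        linarith
      have h5 : Real.exp 1 ≤ (((k : ℝ) + 1) / k) ^ (k + 1) := by
        rw [← Real.exp_log (show 0 < (((k : ℝ) + 1) / k) ^ (k + 1) by positivity), Real.log_pow]
        exact Real.exp_le_exp.2 h4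
      rw [div_pow, le_div_iff₀ (by positivity)] at h5
      exact h5
    rw [Nat.factorial_succ]
    push_cast
    calc ((k : ℝ) + 1) * k.factorial ≤ ((k : ℝ) + 1) * (k * (k : ℝ) ^ k * Real.exp (1 - k)) := by gcongr
      _ = ((k : ℝ) + 1) * ((Real.exp 1 * (k : ℝ) ^ (k + 1)) * Real.exp (-k)) := by
          rw [show (1 : ℝ) - k = 1 + -k by ring, Real.exp_add]
          ring
      _ ≤ ((k : ℝ) + 1) * (((k : ℝ) + 1) ^ (k + 1) * Real.exp (-k)) := by gcongr
      _ = _ := by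
          rw [show (1 : ℝ) - (k + 1) = -k by ring]
          ring

/-- **weak type estimate of every order** -/
theorem weak (q : ℕ) {θ K : ℝ} (hθ : 0 < θ) (hK : 0 < K) : ∃ C : ℝ, 0 < C ∧ ∃ X₀ : ℕ, ∀ X : ℕ, X₀ ≤ X → ∀ Y : ℕ,
    (X : ℝ) ^ θ ≤ Y → Y ≤ X → ∀ u : ℝ, 0 < u → ((Ex K u X Y).card : ℝ) ≤ C / u ^ q * Y := by
  obtain ⟨X₁, hred⟩ := reduce (τ := 1) hθ (show 0 < K / 2 by positivity) one_pos le_rfl
  obtain ⟨X₂, hbad⟩ := bad q hθ (show 0 < K / 2 by positivity)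
  obtain ⟨C, hC⟩ : ∃ C : ℝ, C = (3 / θ) ^ q + (32 * q / K) ^ q + 101 * q.factorial * (32 / θ) ^ q := ⟨_, rfl⟩
  have hC1 : (3 / θ) ^ q ≤ C := by
    rw [hC]
    have h1 : 0 ≤ (32 * q / K) ^ q := by positivity
    have h2 : 0 ≤ 101 * q.factorial * (32 / θ) ^ q := by positivity
    linarith
  have hC2 : (32 * q / K) ^ q ≤ C := by
    rw [hC]
    have h1 : 0 ≤ (3 / θ) ^ q := by positivity
    have h2 : 0 ≤ 101 * q.factorial * (32 / θ) ^ q := by positivity
    linarith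
  have hC3 : 101 * q.factorial * (32 / θ) ^ q ≤ C := by
    rw [hC]
    have h1 : 0 ≤ (3 / θ) ^ q := by positivity
    have h2 : 0 ≤ (32 * q / K) ^ q := by positivity
    linarith
  have hC0 : 0 < C := lt_of_lt_of_le (by positivity) hC1
  refine ⟨C, hC0, max X₁ X₂, fun X hX Y hY1 hY2 u hu => ?_⟩
  have hY0 : (0 : ℝ) ≤ Y := Nat.cast_nonneg Y
  have huq : 0 < u ^ q := pow_pos hu q
  have triv : ∀ a : ℝ, u ≤ a → a ^ q ≤ C → ((Ex K u X Y).card : ℝ) ≤ C / u ^ q * Y := by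
    intro a ha haC
    refine (Ex_card_le K u X Y).trans ?_
    have h1 : 1 ≤ C / u ^ q := by
      rw [le_div_iff₀ huq, one_mul]
      exact (pow_le_pow_left₀ hu.le ha q).trans haC
    exact le_mul_of_one_le_left hY0 h1
  rcases le_or_gt u (3 / θ) with h1 | h1
  · exact triv _ h1 hC1
  rcases le_or_gt u (32 * q / K) with h2 | h2
  · exact triv _ h2 hC2
  have h3 := hred X ((le_max_left _ _).trans hX) Y hY1 hY2 u h1
  have e1 : 2 * (K / 2) / 1 = K := by ring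
  rw [e1] at h3
  have hv : u * (K / 2) / (1 + 1) ^ 3 = u * K / 16 := by ring
  rw [hv] at h3
  have h4 : 2 * (q : ℝ) < u * K / 16 := by
    rw [div_lt_iff₀ hK] at h2
    linarith
  have hq0 : (0 : ℝ) ≤ q := Nat.cast_nonneg q
  have h5 := hbad X ((le_max_right _ _).trans hX) Y hY1 hY2 (u * K / 16) (by linarith)
  have h6 : ((Ex K u X Y).card : ℝ) ≤ _ := le_trans (by exact_mod_cast Finset.card_le_card h3) h5
  refine h6.trans ?_
  apply mul_le_mul_of_nonneg_right _ hY0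
  have h7 : (u * K / 32) ^ q ≤ (u * K / 16 - q) ^ q := by
    apply pow_le_pow_left₀ (by positivity)
    linarith
  calc 101 * (q.factorial : ℝ) * (2 * (K / 2) / θ) ^ q / (u * K / 16 - q) ^ q
      ≤ 101 * (q.factorial : ℝ) * (2 * (K / 2) / θ) ^ q / (u * K / 32) ^ q := by
        apply div_le_div_of_nonneg_left (by positivity) (by positivity) h7
    _ = 101 * q.factorial * (32 / θ) ^ q / u ^ q := by
        have e : 2 * (K / 2) / θ = (u * K / 32) * ((32 / θ) / u) := by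
          field_simp
        rw [e, mul_pow (u * K / 32), div_pow (32 / θ) u]
        have : (u * K / 32) ^ q ≠ 0 := by positivity
        field_simp
    _ ≤ C / u ^ q := by gcongr

/-- **exponential tails**, with the exponent -/
theorem tail {θ K τ c : ℝ} (hθ : 0 < θ) (hK : 0 < K) (hτ : 0 < τ) (hτ1 : τ ≤ 1) (hc : 0 < c)
    (hcβ : c < K / ((1 + τ) ^ 3 * (1 + 2 * K / θ))) : ∃ C : ℝ, 0 < C ∧ ∀ u : ℝ, ∃ X₀ : ℕ, ∀ X : ℕ, X₀ ≤ X →
    ∀ Y : ℕ, (X : ℝ) ^ θ ≤ Y → Y ≤ X → ((Ex (2 * K / τ) u X Y).card : ℝ) ≤ C * Real.exp (-(c * u)) * Y := by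
  obtain ⟨β, hβ⟩ : ∃ β, β = K / ((1 + τ) ^ 3 * (1 + 2 * K / θ)) := ⟨_, rfl⟩
  rw [← hβ] at hcβ
  have hβ0 : 0 < β := by linarith
  obtain ⟨X₁, hred⟩ := reduce hθ hK hτ hτ1
  obtain ⟨u₀, hu₀⟩ : ∃ u₀, u₀ = max (1 / β) (3 / θ) := ⟨_, rfl⟩
  obtain ⟨C, hC⟩ : ∃ C : ℝ, C = Real.exp (c * u₀) + 101 * Real.exp 2 * β / (β - c) := ⟨_, rfl⟩
  have hC1 : Real.exp (c * u₀) ≤ C := by
    rw [hC]
    have : 0 ≤ 101 * Real.exp 2 * β / (β - c) := by
      have : 0 < β - c := by linarith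
      positivity
    linarith
  have hC2 : 101 * Real.exp 2 * β / (β - c) ≤ C := by
    rw [hC]
    have := Real.exp_pos (c * u₀)
    linarith
  have hC0 : 0 < C := lt_of_lt_of_le (Real.exp_pos _) hC1
  refine ⟨C, hC0, fun u => ?_⟩
  rcases le_or_gt u u₀ with h1 | h1
  · refine ⟨0, fun X _ Y _ _ => (Ex_card_le _ _ _ _).trans ?_⟩
    have hY0 : (0 : ℝ) ≤ Y := Nat.cast_nonneg Y
    apply le_mul_of_one_le_left hY0
    calc (1 : ℝ) ≤ Real.exp (c * u₀) * Real.exp (-(c * u)) := by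
          rw [← Real.exp_add]
          apply Real.one_le_exp
          nlinarith
      _ ≤ _ := by gcongr
  · have hub : 1 / β < u := lt_of_le_of_lt (by rw [hu₀]; exact le_max_left _ _) h1
    have huθ : 3 / θ < u := lt_of_le_of_lt (by rw [hu₀]; exact le_max_right _ _) h1
    have hu0 : 0 < u := lt_trans (by positivity) hub
    obtain ⟨k, hk⟩ : ∃ k, k = ⌊β * u⌋₊ := ⟨_, rfl⟩
    have hk1 : 1 ≤ k := by
      rw [hk]
      apply Nat.le_floor
      rw [div_lt_iff₀ hβ0] at hub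
      push_cast
      linarith
    have hkr : (1 : ℝ) ≤ k := by exact_mod_cast hk1
    have hk2 : (k : ℝ) ≤ β * u := by rw [hk]; exact Nat.floor_le (by positivity)
    have hk3 : β * u < k + 1 := by rw [hk]; exact Nat.lt_floor_add_one _
    obtain ⟨X₂, hbad⟩ := bad k hθ hK
    refine ⟨max X₁ X₂, fun X hX Y hY1 hY2 => ?_⟩
    have hY0 : (0 : ℝ) ≤ Y := Nat.cast_nonneg Y
    have h3 := hred X ((le_max_left _ _).trans hX) Y hY1 hY2 u huθ
    obtain ⟨v, hv⟩ : ∃ v, v = u * K / (1 + τ) ^ 3 := ⟨_, rfl⟩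
    rw [← hv] at h3
    have hvk : (2 * K / θ) * k ≤ v - k := by
      have h4 : (1 + 2 * K / θ) * (β * u) = v := by
        rw [hβ, hv]
        have : 1 + 2 * K / θ ≠ 0 := by positivity
        have : (1 + τ) ≠ 0 := by positivity
        field_simp
      have h5 : (1 + 2 * K / θ) * k ≤ (1 + 2 * K / θ) * (β * u) := by gcongr
      linarith
    have hvk0 : 0 < (2 * K / θ) * k := by positivity
    have h5 := hbad X ((le_max_right _ _).trans hX) Y hY1 hY2 v (by linarith)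
    have h6 : ((Ex (2 * K / τ) u X Y).card : ℝ) ≤ _ := le_trans (by exact_mod_cast Finset.card_le_card h3) h5
    refine h6.trans ?_
    apply mul_le_mul_of_nonneg_right _ hY0
    have h7 : 101 * (k.factorial : ℝ) * (2 * K / θ) ^ k / (v - k) ^ k ≤ 101 * k * Real.exp (1 - k) := by
      have h8 : ((2 * K / θ) * k) ^ k ≤ (v - k) ^ k := pow_le_pow_left₀ hvk0.le hvk k
      have h9 := fact_le k hk1
      calc 101 * (k.factorial : ℝ) * (2 * K / θ) ^ k / (v - k) ^ k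
          ≤ 101 * (k.factorial : ℝ) * (2 * K / θ) ^ k / ((2 * K / θ) * k) ^ k := by
            apply div_le_div_of_nonneg_left (by positivity) (by positivity) h8
        _ = 101 * k.factorial / (k : ℝ) ^ k := by
            rw [mul_pow]
            have : (2 * K / θ) ^ k ≠ 0 := by positivity
            field_simp
        _ ≤ 101 * (k * (k : ℝ) ^ k * Real.exp (1 - k)) / (k : ℝ) ^ k := by gcongr
        _ = _ := by
            have : (k : ℝ) ^ k ≠ 0 := by positivity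
            field_simp
    refine h7.trans ?_
    have h8 : Real.exp (1 - k) ≤ Real.exp 2 * Real.exp (-(β * u)) := by
      rw [← Real.exp_add]
      apply Real.exp_le_exp.2
      linarith
    have h9 : (β - c) * u ≤ Real.exp ((β - c) * u) := by
      have := Real.add_one_le_exp ((β - c) * u)
      linarith
    have h10 : u * Real.exp (-(β * u)) ≤ 1 / (β - c) * Real.exp (-(c * u)) := by
      have h11 : 0 < β - c := by linarith
      have h12 : Real.exp (-(c * u)) = Real.exp ((β - c) * u) * Real.exp (-(β * u)) := by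
        rw [← Real.exp_add]
        congr 1
        ring
      rw [h12, ← mul_assoc]
      apply mul_le_mul_of_nonneg_right _ (Real.exp_pos _).le
      rw [div_mul_eq_mul_div, one_mul, le_div_iff₀ h11]
      linarith
    calc 101 * (k : ℝ) * Real.exp (1 - k) ≤ 101 * (β * u) * (Real.exp 2 * Real.exp (-(β * u))) := by gcongr
      _ = 101 * Real.exp 2 * β * (u * Real.exp (-(β * u))) := by ring
      _ ≤ 101 * Real.exp 2 * β * (1 / (β - c) * Real.exp (-(c * u))) := by gcongr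
      _ = 101 * Real.exp 2 * β / (β - c) * Real.exp (-(c * u)) := by ring
      _ ≤ _ := by gcongr

/-- **exponential tails** for every exponent below `θ / 2` -/
theorem tail_sharp {θ c : ℝ} (hθ : 0 < θ) (hc : 0 < c) (hcθ : c < θ / 2) : ∃ K : ℝ, 0 < K ∧
    ∃ C : ℝ, 0 < C ∧ ∀ u : ℝ, ∃ X₀ : ℕ, ∀ X : ℕ, X₀ ≤ X →
    ∀ Y : ℕ, (X : ℝ) ^ θ ≤ Y → Y ≤ X → ((Ex K u X Y).card : ℝ) ≤ C * Real.exp (-(c * u)) * Y := by
  obtain ⟨r, hr⟩ : ∃ r, r = θ / (2 * c) := ⟨_, rfl⟩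
  have hr1 : 1 < r := by
    rw [hr, lt_div_iff₀ (by positivity)]
    linarith
  obtain ⟨τ, hτ⟩ : ∃ τ, τ = min 1 ((r - 1) / 16) := ⟨_, rfl⟩
  have hτ0 : 0 < τ := by
    rw [hτ]
    exact lt_min one_pos (by linarith)
  have hτ1 : τ ≤ 1 := by rw [hτ]; exact min_le_left _ _
  have hτ2 : τ ≤ (r - 1) / 16 := by rw [hτ]; exact min_le_right _ _
  have h1 : (1 + τ) ^ 4 < r := by
    have h2 : (1 + τ) ^ 4 ≤ 1 + 15 * τ := by
      have h3 : τ ^ 2 ≤ τ := by nlinarith
      have h4 : τ ^ 3 ≤ τ := by nlinarith [pow_nonneg hτ0.le 3]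
      have h5 : τ ^ 4 ≤ τ := by nlinarith [pow_nonneg hτ0.le 4]
      nlinarith
    linarith
  -- `K = θ / (2 τ)`
  have hβ : c < (θ / (2 * τ)) / ((1 + τ) ^ 3 * (1 + 2 * (θ / (2 * τ)) / θ)) := by
    have e1 : 1 + 2 * (θ / (2 * τ)) / θ = (1 + τ) / τ := by
      field_simp
      ring
    rw [e1]
    have e2 : (θ / (2 * τ)) / ((1 + τ) ^ 3 * ((1 + τ) / τ)) = θ / (2 * (1 + τ) ^ 4) := by
      have : (1 : ℝ) + τ ≠ 0 := by positivity
      field_simp
    rw [e2, lt_div_iff₀ (by positivity)]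
    rw [hr, lt_div_iff₀ (by positivity)] at h1
    linarith
  obtain ⟨C, hC, h⟩ := tail hθ (show 0 < θ / (2 * τ) by positivity) hτ0 hτ1 hc hβ
  exact ⟨2 * (θ / (2 * τ)) / τ, by positivity, C, hC, h⟩

/-- **exponential tails** for all lengths `H ≥ K log n` with any `K > 0` -/
theorem tail_all {θ K : ℝ} (hθ : 0 < θ) (hK : 0 < K) : ∃ c C : ℝ, 0 < c ∧ 0 < C ∧ ∀ u : ℝ, ∃ X₀ : ℕ, ∀ X : ℕ, X₀ ≤ X →
    ∀ Y : ℕ, (X : ℝ) ^ θ ≤ Y → Y ≤ X → ((Ex K u X Y).card : ℝ) ≤ C * Real.exp (-(c * u)) * Y := by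
  obtain ⟨β, hβ⟩ : ∃ β, β = (K / 2) / ((1 + 1) ^ 3 * (1 + 2 * (K / 2) / θ)) := ⟨_, rfl⟩
  have hβ0 : 0 < β := by rw [hβ]; positivity
  obtain ⟨C, hC, h⟩ := tail hθ (show 0 < K / 2 by positivity) one_pos le_rfl (show 0 < β / 2 by positivity)
    (by rw [← hβ]; linarith)
  have e1 : 2 * (K / 2) / 1 = K := by ring
  rw [e1] at h
  exact ⟨β / 2, C, by positivity, hC, h⟩

end Pool.Agent.U26Z.MX
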