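import Pool.Agent.U26Z.MX.Sv

set_option autoImplicit false

/-!
# Averages over the patterns
-/

namespace Pool.Agent.U26Z.MX

open Finset

lemma exp_le_two {t : ℝ} (h0 : 0 ≤ t) (h1 : t ≤ 1) : Real.exp t ≤ 1 + 2 * t := by
  have h := convexOn_exp.2 (Set.mem_univ (0 : ℝ)) (Set.mem_univ (1 : ℝ)) (sub_nonneg.2 h1) h0
    (by ring)
  simp only [smul_eq_mul, mul_zero, mul_one, zero_add, Real.exp_zero] at h
  have h2 : Real.exp 1 < 3 := by
    have := Real.exp_one_lt_d9
    linarith
  nlinarith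

/-- the product over the primes in `(w, H]` which divide `m` -/
noncomputable def EE (c w H m : ℕ) : ℝ := ∏ l ∈ (Pw w H).filter (fun l => l ∣ m), (1 + (c : ℝ) / l)

theorem EE_ge (c w H m : ℕ) : 1 ≤ EE c w H m := by
  unfold EE
  calc (1 : ℝ) = ∏ l ∈ (Pw w H).filter (fun l => l ∣ m), (1 : ℝ) := by rw [Finset.prod_const_one]
    _ ≤ _ := by
      apply Finset.prod_le_prod (fun _ _ => zero_le_one)
      intro l _
      have : 0 ≤ (c : ℝ) / l := by positivity
      linarith

/-- the pairs of elements of `T` -/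
def prs (T : Finset ℕ) : Finset (ℕ × ℕ) := (T ×ˢ T).filter (fun x => x.1 < x.2)

theorem EE_pow (k w H m : ℕ) (hw : k ^ 3 ≤ w) : EE k w H m ^ (k ^ 2) ≤ EE (2 * k ^ 3) w H m := by
  unfold EE
  rw [← Finset.prod_pow]
  apply Finset.prod_le_prod (fun _ _ => by positivity)
  intro l hl
  rw [mem_filter] at hl
  unfold Pw at hl
  rw [mem_filter, mem_Ioc] at hl
  have hl0 : (0 : ℝ) < l := by exact_mod_cast hl.1.2.pos
  have hwl : ((k : ℝ) ^ 3) ≤ l := by exact_mod_cast (by omega : k ^ 3 ≤ l)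
  calc (1 + (k : ℝ) / l) ^ (k ^ 2) ≤ (Real.exp ((k : ℝ) / l)) ^ (k ^ 2) := by
        apply pow_le_pow_left₀ (by positivity)
        have := Real.add_one_le_exp ((k : ℝ) / l)
        linarith
    _ = Real.exp ((k : ℝ) ^ 3 / l) := by
        rw [← Real.exp_nat_mul]
        congr 1
        push_cast
        ring
    _ ≤ 1 + 2 * ((k : ℝ) ^ 3 / l) := exp_le_two (by positivity) (by rw [div_le_one hl0]; exact hwl)
    _ = 1 + ((2 * k ^ 3 : ℕ) : ℝ) / l := by push_cast; ring

/-- (A1) -/
theorem FT_sub (k w H : ℕ) (T : Finset ℕ) (hk : T.card = k) (hw : k ^ 3 ≤ w) :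
    FT k w H T - 1 ≤ ∑ x ∈ prs T, (EE (2 * k ^ 3) w H (x.2 - x.1) - 1) := by
  classical
  have hcard : (prs T).card ≤ k ^ 2 := by
    unfold prs
    refine (Finset.card_filter_le _ _).trans ?_
    rw [Finset.card_product, hk, sq]
  have h1 : FT k w H T ≤ ∏ x ∈ prs T, EE k w H (x.2 - x.1) := by
    unfold FT EE
    have hsub : Dc w H T = (prs T).biUnion (fun x => (Pw w H).filter (fun l => l ∣ x.2 - x.1)) := by
      ext l
      unfold Dc prs
      simp only [mem_filter, mem_biUnion, mem_product, Prod.exists]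
      constructor
      · rintro ⟨h1, t, ht, t', ht', htt, hd⟩
        exact ⟨t, t', ⟨⟨ht, ht'⟩, htt⟩, h1, hd⟩
      · rintro ⟨t, t', ⟨⟨ht, ht'⟩, htt⟩, h1, hd⟩
        exact ⟨h1, t, ht, t', ht', htt, hd⟩
    rw [hsub]
    generalize prs T = S
    induction S using Finset.induction_on with
    | empty => simp
    | insert x S hx ih =>
      rw [Finset.biUnion_insert, Finset.prod_insert hx]
      have h2 := Finset.prod_union_inter (s₁ := (Pw w H).filter (fun l => l ∣ x.2 - x.1))
        (s₂ := S.biUnion (fun x => (Pw w H).filter (fun l => l ∣ x.2 - x.1))) (f := fun l : ℕ => 1 + (k : ℝ) / l)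
      have h3 : (1 : ℝ) ≤ ∏ l ∈ (Pw w H).filter (fun l => l ∣ x.2 - x.1) ∩
          S.biUnion (fun x => (Pw w H).filter (fun l => l ∣ x.2 - x.1)), (1 + (k : ℝ) / l) := by
        calc (1 : ℝ) = ∏ l ∈ (Pw w H).filter (fun l => l ∣ x.2 - x.1) ∩
          S.biUnion (fun x => (Pw w H).filter (fun l => l ∣ x.2 - x.1)), (1 : ℝ) := by rw [Finset.prod_const_one]
          _ ≤ _ := by
            apply Finset.prod_le_prod (fun _ _ => zero_le_one)
            intro l _
            have : 0 ≤ (k : ℝ) / l := by positivity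
            linarith
      have h4 : 0 ≤ ∏ l ∈ (Pw w H).filter (fun l => l ∣ x.2 - x.1) ∪
          S.biUnion (fun x => (Pw w H).filter (fun l => l ∣ x.2 - x.1)), (1 + (k : ℝ) / l) :=
        Finset.prod_nonneg fun l _ => by positivity
      calc _ ≤ (∏ l ∈ (Pw w H).filter (fun l => l ∣ x.2 - x.1) ∪
          S.biUnion (fun x => (Pw w H).filter (fun l => l ∣ x.2 - x.1)), (1 + (k : ℝ) / l)) *
          (∏ l ∈ (Pw w H).filter (fun l => l ∣ x.2 - x.1) ∩
          S.biUnion (fun x => (Pw w H).filter (fun l => l ∣ x.2 - x.1)), (1 + (k : ℝ) / l)) :=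
            le_mul_of_one_le_right h4 h3
        _ = _ := h2
        _ ≤ _ := by
            apply mul_le_mul_of_nonneg_left ih
            exact Finset.prod_nonneg fun l _ => by positivity
  have hnn : ∀ x ∈ prs T, 0 ≤ EE (2 * k ^ 3) w H (x.2 - x.1) - 1 := fun x _ => by
    have := EE_ge (2 * k ^ 3) w H (x.2 - x.1)
    linarith
  rcases (prs T).eq_empty_or_nonempty with h0 | hne
  · rw [h0, Finset.prod_empty] at h1
    rw [h0, Finset.sum_empty]
    linarith
  · obtain ⟨x₀, hx₀, hmax⟩ := Finset.exists_max_image (prs T) (fun x => EE k w H (x.2 - x.1)) hne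
    have h2 : ∏ x ∈ prs T, EE k w H (x.2 - x.1) ≤ EE k w H (x₀.2 - x₀.1) ^ (k ^ 2) := by
      calc ∏ x ∈ prs T, EE k w H (x.2 - x.1) ≤ ∏ _x ∈ prs T, EE k w H (x₀.2 - x₀.1) := by
            apply Finset.prod_le_prod (fun x _ => by have := EE_ge k w H (x.2 - x.1); linarith)
            exact hmax
        _ = EE k w H (x₀.2 - x₀.1) ^ (prs T).card := by rw [Finset.prod_const]
        _ ≤ _ := pow_le_pow_right₀ (EE_ge _ _ _ _) hcard
    have h3 := EE_pow k w H (x₀.2 - x₀.1) hw
    have h4 := Finset.single_le_sum hnn hx₀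
    linarith

/-- (A2) -/
theorem EE_sum (c w H : ℕ) (hw : 1 ≤ w) :
    ∑ m ∈ Icc 1 H, (EE c w H m - 1) ≤ H * (Real.exp (c / w) - 1) := by
  classical
  have hw0 : (0 : ℝ) < w := by exact_mod_cast hw
  have h1 : ∑ m ∈ Icc 1 H, EE c w H m ≤ H * Real.exp (c / w) := by
    have e1 : ∀ m ∈ Icc 1 H, EE c w H m = ∑ s ∈ (Pw w H).powerset,
        (if (∏ l ∈ s, l) ∣ m then ∏ l ∈ s, ((c : ℝ) / l) else 0) := by
      intro m hm
      unfold EE
      rw [Finset.prod_one_add]
      have hsub : ((Pw w H).filter (fun l => l ∣ m)).powerset ⊆ (Pw w H).powerset :=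
        Finset.powerset_mono.2 (Finset.filter_subset _ _)
      rw [← Finset.sum_filter]
      apply Finset.sum_congr _ fun _ _ => rfl
      ext s
      rw [Finset.mem_powerset, mem_filter, Finset.mem_powerset]
      constructor
      · intro h
        refine ⟨h.trans (Finset.filter_subset _ _), ?_⟩
        apply Finset.prod_primes_dvd m
        · intro l hl
          have := h hl
          rw [mem_filter] at this
          unfold Pw at this
          rw [mem_filter] at this
          exact this.1.2.prime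
        · intro l hl
          have := h hl
          rw [mem_filter] at this
          exact this.2
      · rintro ⟨h2, h3⟩ l hl
        rw [mem_filter]
        exact ⟨h2 hl, (Finset.dvd_prod_of_mem _ hl).trans h3⟩
    rw [Finset.sum_congr rfl e1, Finset.sum_comm]
    calc ∑ s ∈ (Pw w H).powerset, ∑ m ∈ Icc 1 H, (if (∏ l ∈ s, l) ∣ m then ∏ l ∈ s, ((c : ℝ) / l) else 0)
        ≤ ∑ s ∈ (Pw w H).powerset, (H : ℝ) * ∏ l ∈ s, ((c : ℝ) / (l : ℝ) ^ 2) := by
          refine Finset.sum_le_sum fun s hs => ?_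
          rw [Finset.mem_powerset] at hs
          have hpos : ∀ l ∈ s, 0 < l := by
            intro l hl
            have := hs hl
            unfold Pw at this
            rw [mem_filter] at this
            exact this.2.pos
          have hP : 0 < ∏ l ∈ s, l := Finset.prod_pos hpos
          rw [← Finset.sum_filter, Finset.sum_const, nsmul_eq_mul]
          have h2 : ((Icc 1 H).filter (fun m => (∏ l ∈ s, l) ∣ m)).card = H / ∏ l ∈ s, l := by
            have := Nat.Ioc_filter_dvd_card_eq_div H (∏ l ∈ s, l)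
            rw [← this]
            congr 1
          rw [h2]
          have h3 : ((H / ∏ l ∈ s, l : ℕ) : ℝ) ≤ H / ((∏ l ∈ s, l : ℕ) : ℝ) := Nat.cast_div_le
          have e2 : ∏ l ∈ s, ((c : ℝ) / (l : ℝ) ^ 2) = (∏ l ∈ s, ((c : ℝ) / l)) / ((∏ l ∈ s, l : ℕ) : ℝ) := by
            push_cast
            rw [← Finset.prod_div_distrib]
            refine Finset.prod_congr rfl fun l _ => ?_
            rw [div_div, sq]
          rw [e2]
          calc ((H / ∏ l ∈ s, l : ℕ) : ℝ) * ∏ l ∈ s, ((c : ℝ) / l) ≤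
              (H / ((∏ l ∈ s, l : ℕ) : ℝ)) * ∏ l ∈ s, ((c : ℝ) / l) := by
                apply mul_le_mul_of_nonneg_right h3
                exact Finset.prod_nonneg fun l _ => by positivity
            _ = _ := by ring
      _ = H * ∏ l ∈ Pw w H, (1 + (c : ℝ) / (l : ℝ) ^ 2) := by
          rw [Finset.prod_one_add, Finset.mul_sum]
      _ ≤ H * Real.exp (c / w) := by
          apply mul_le_mul_of_nonneg_left _ (Nat.cast_nonneg H)
          calc ∏ l ∈ Pw w H, (1 + (c : ℝ) / (l : ℝ) ^ 2) ≤ ∏ l ∈ Pw w H, Real.exp ((c : ℝ) / (l : ℝ) ^ 2) := by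
                apply Finset.prod_le_prod (fun _ _ => by positivity)
                intro l _
                have := Real.add_one_le_exp ((c : ℝ) / (l : ℝ) ^ 2)
                linarith
            _ = Real.exp (∑ l ∈ Pw w H, (c : ℝ) / (l : ℝ) ^ 2) := (Real.exp_sum _ _).symm
            _ ≤ _ := by
                apply Real.exp_le_exp.2
                rcases le_total w H with h | h
                · have h4 := sum_Ioc_inv_sq_le_sub (α := ℝ) (by omega : w ≠ 0) h
                  have h5 : (0 : ℝ) ≤ (H : ℝ)⁻¹ := by positivity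
                  calc ∑ l ∈ Pw w H, (c : ℝ) / (l : ℝ) ^ 2 ≤ ∑ l ∈ Ioc w H, (c : ℝ) / (l : ℝ) ^ 2 :=
                        Finset.sum_le_sum_of_subset_of_nonneg (Finset.filter_subset _ _) fun l _ _ => by positivity
                    _ = c * ∑ l ∈ Ioc w H, ((l : ℝ) ^ 2)⁻¹ := by
                        rw [Finset.mul_sum]
                        exact Finset.sum_congr rfl fun l _ => by rw [div_eq_mul_inv]
                    _ ≤ c * (w : ℝ)⁻¹ := by
                        apply mul_le_mul_of_nonneg_left _ (Nat.cast_nonneg c)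
                        linarith
                    _ = _ := by rw [div_eq_mul_inv]
                · unfold Pw
                  rw [Finset.Ioc_eq_empty (by omega), Finset.filter_empty, Finset.sum_empty]
                  positivity
  rw [Finset.sum_sub_distrib, Finset.sum_const, Nat.card_Icc, Nat.add_sub_cancel, nsmul_eq_mul, mul_one]
  linarith

/-- the number of the sets with two given elements -/
theorem card_two (k H : ℕ) {a b : ℕ} (hab : a < b) :
    (((powersetCard k (Icc 1 H)).filter (fun T => a ∈ T ∧ b ∈ T)).card : ℝ) * (H : ℝ) ^ 2 ≤ (H : ℝ) ^ k := by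
  classical
  rcases lt_or_ge k 2 with hk | hk
  · have h1 : (powersetCard k (Icc 1 H)).filter (fun T => a ∈ T ∧ b ∈ T) = ∅ := by
      rw [Finset.filter_eq_empty_iff]
      rintro T hT ⟨h1, h2⟩
      rw [mem_powersetCard] at hT
      have h3 : ({a, b} : Finset ℕ) ⊆ T := by
        intro x hx
        rw [mem_insert, mem_singleton] at hx
        rcases hx with rfl | rfl <;> assumption
      have h4 := Finset.card_le_card h3
      rw [Finset.card_pair hab.ne] at h4
      omega
    rw [h1, Finset.card_empty, Nat.cast_zero, zero_mul]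
    positivity
  · have h1 : ((powersetCard k (Icc 1 H)).filter (fun T => a ∈ T ∧ b ∈ T)).card ≤
        (powersetCard (k - 2) (Icc 1 H)).card := by
      apply Finset.card_le_card_of_injOn (fun T => (T.erase a).erase b)
      · intro T hT
        rw [mem_coe, mem_filter, mem_powersetCard] at hT
        rw [mem_coe, mem_powersetCard]
        obtain ⟨⟨h1, h2⟩, h3, h4⟩ := hT
        refine ⟨((Finset.erase_subset _ _).trans (Finset.erase_subset _ _)).trans h1, ?_⟩
        rw [Finset.card_erase_of_mem (Finset.mem_erase.2 ⟨hab.ne', h4⟩), Finset.card_erase_of_mem h3, h2]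
        omega
      · intro T hT T' hT' h
        rw [mem_coe, mem_filter] at hT hT'
        simp only at h
        have h5 : ∀ U : Finset ℕ, a ∈ U → b ∈ U → U = insert a (insert b ((U.erase a).erase b)) := by
          intro U ha hb
          rw [Finset.insert_erase (Finset.mem_erase.2 ⟨hab.ne', hb⟩), Finset.insert_erase ha]
        rw [h5 T hT.2.1 hT.2.2, h5 T' hT'.2.1 hT'.2.2, h]
    rw [Finset.card_powersetCard, Nat.card_Icc, Nat.add_sub_cancel] at h1
    have h2 : H.choose (k - 2) ≤ H ^ (k - 2) := Nat.choose_le_pow H (k - 2)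
    have h3 : (((powersetCard k (Icc 1 H)).filter (fun T => a ∈ T ∧ b ∈ T)).card : ℝ) ≤ (H : ℝ) ^ (k - 2) := by
      exact_mod_cast h1.trans h2
    calc _ ≤ (H : ℝ) ^ (k - 2) * (H : ℝ) ^ 2 := by gcongr
      _ = (H : ℝ) ^ k := by rw [← pow_add]; congr 1; omega

/-- (A3) -/
theorem FT_sum (k w H : ℕ) (hw1 : 1 ≤ w) (hw : k ^ 3 ≤ w) (hH : 1 ≤ H) :
    ∑ T ∈ powersetCard k (Icc 1 H), (FT k w H T - 1) ≤
      (H : ℝ) ^ k * (Real.exp ((2 * k ^ 3 : ℕ) / w) - 1) := by
  classical
  have hH0 : (0 : ℝ) < H := by exact_mod_cast hH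
  obtain ⟨g, hg⟩ : ∃ g : ℕ → ℝ, g = fun m => EE (2 * k ^ 3) w H m - 1 := ⟨_, rfl⟩
  have hg0 : ∀ m, 0 ≤ g m := fun m => by
    rw [hg]
    have := EE_ge (2 * k ^ 3) w H m
    simp only
    linarith
  have h1 : ∑ T ∈ powersetCard k (Icc 1 H), (FT k w H T - 1) ≤
      ∑ T ∈ powersetCard k (Icc 1 H), ∑ x ∈ prs T, g (x.2 - x.1) := by
    refine Finset.sum_le_sum fun T hT => ?_
    rw [mem_powersetCard] at hT
    rw [hg]
    exact FT_sub k w H T hT.2 hw
  have h2 : ∑ T ∈ powersetCard k (Icc 1 H), ∑ x ∈ prs T, g (x.2 - x.1) =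
      ∑ x ∈ prs (Icc 1 H), (((powersetCard k (Icc 1 H)).filter (fun T => x.1 ∈ T ∧ x.2 ∈ T)).card : ℝ) * g (x.2 - x.1) := by
    have e1 : ∀ T ∈ powersetCard k (Icc 1 H), ∑ x ∈ prs T, g (x.2 - x.1) =
        ∑ x ∈ prs (Icc 1 H), if x.1 ∈ T ∧ x.2 ∈ T then g (x.2 - x.1) else 0 := by
      intro T hT
      rw [mem_powersetCard] at hT
      rw [← Finset.sum_filter]
      apply Finset.sum_congr _ fun _ _ => rfl
      ext x
      unfold prs
      simp only [mem_filter, mem_product]
      constructor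
      · rintro ⟨⟨h3, h4⟩, h5⟩
        exact ⟨⟨⟨hT.1 h3, hT.1 h4⟩, h5⟩, h3, h4⟩
      · rintro ⟨⟨_, h5⟩, h3, h4⟩
        exact ⟨⟨h3, h4⟩, h5⟩
    rw [Finset.sum_congr rfl e1, Finset.sum_comm]
    refine Finset.sum_congr rfl fun x _ => ?_
    rw [← Finset.sum_filter, Finset.sum_const, nsmul_eq_mul]
  have h3 : ∑ x ∈ prs (Icc 1 H), g (x.2 - x.1) ≤ H * ∑ m ∈ Icc 1 H, g m := by
    have h4 : prs (Icc 1 H) ⊆ (Icc 1 H ×ˢ Icc 1 H).image (fun y => (y.1, y.1 + y.2)) := by
      intro x hx
      unfold prs at hx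
      rw [mem_filter, mem_product, mem_Icc, mem_Icc] at hx
      rw [mem_image]
      refine ⟨(x.1, x.2 - x.1), ?_, ?_⟩
      · rw [mem_product, mem_Icc, mem_Icc]
        exact ⟨hx.1.1, by show 1 ≤ x.2 - x.1; omega, by show x.2 - x.1 ≤ H; omega⟩
      · apply Prod.ext
        · rfl
        · show x.1 + (x.2 - x.1) = x.2
          omega
    calc ∑ x ∈ prs (Icc 1 H), g (x.2 - x.1) ≤
        ∑ x ∈ (Icc 1 H ×ˢ Icc 1 H).image (fun y => (y.1, y.1 + y.2)), g (x.2 - x.1) :=
          Finset.sum_le_sum_of_subset_of_nonneg h4 fun _ _ _ => hg0 _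
      _ = ∑ y ∈ Icc 1 H ×ˢ Icc 1 H, g (y.1 + y.2 - y.1) := by
          rw [Finset.sum_image]
          intro y _ y' _ h
          have h5 := congrArg Prod.fst h
          have h6 := congrArg Prod.snd h
          simp only at h5 h6
          apply Prod.ext h5
          omega
      _ = ∑ y ∈ Icc 1 H ×ˢ Icc 1 H, g y.2 := by
          refine Finset.sum_congr rfl fun y _ => ?_
          rw [Nat.add_sub_cancel_left]
      _ = _ := by
          rw [Finset.sum_product]
          simp only [Finset.sum_const, Nat.card_Icc, Nat.add_sub_cancel, nsmul_eq_mul]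
  have h4 := EE_sum (2 * k ^ 3) w H hw1
  have h5 : ∑ m ∈ Icc 1 H, g m ≤ H * (Real.exp ((2 * k ^ 3 : ℕ) / w) - 1) := by rw [hg]; exact h4
  have h6 : (∑ T ∈ powersetCard k (Icc 1 H), (FT k w H T - 1)) * (H : ℝ) ^ 2 ≤
      ((H : ℝ) ^ k * (Real.exp ((2 * k ^ 3 : ℕ) / w) - 1)) * (H : ℝ) ^ 2 := by
    calc (∑ T ∈ powersetCard k (Icc 1 H), (FT k w H T - 1)) * (H : ℝ) ^ 2 ≤
        (∑ x ∈ prs (Icc 1 H), (((powersetCard k (Icc 1 H)).filter (fun T => x.1 ∈ T ∧ x.2 ∈ T)).card : ℝ) *
          g (x.2 - x.1)) * (H : ℝ) ^ 2 := by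
          rw [← h2]
          gcongr
      _ = ∑ x ∈ prs (Icc 1 H), ((((powersetCard k (Icc 1 H)).filter (fun T => x.1 ∈ T ∧ x.2 ∈ T)).card : ℝ) *
          (H : ℝ) ^ 2) * g (x.2 - x.1) := by
          rw [Finset.sum_mul]
          exact Finset.sum_congr rfl fun x _ => by ring
      _ ≤ ∑ x ∈ prs (Icc 1 H), (H : ℝ) ^ k * g (x.2 - x.1) := by
          refine Finset.sum_le_sum fun x hx => mul_le_mul_of_nonneg_right ?_ (hg0 _)
          unfold prs at hx
          rw [mem_filter] at hx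
          exact card_two k H hx.2
      _ = (H : ℝ) ^ k * ∑ x ∈ prs (Icc 1 H), g (x.2 - x.1) := by rw [Finset.mul_sum]
      _ ≤ (H : ℝ) ^ k * (H * (H * (Real.exp ((2 * k ^ 3 : ℕ) / w) - 1))) := by
          apply mul_le_mul_of_nonneg_left _ (by positivity)
          exact h3.trans (mul_le_mul_of_nonneg_left h5 hH0.le)
      _ = _ := by ring
  exact le_of_mul_le_mul_right h6 (by positivity)

/-- the product of the primes up to `w` -/
def Wp (w : ℕ) : ℕ := ∏ p ∈ (Icc 1 w).filter Nat.Prime, p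

theorem Wp_pos (w : ℕ) : 0 < Wp w := Finset.prod_pos fun p hp => (mem_filter.1 hp).2.pos

theorem Wp_cop (w : ℕ) {l : ℕ} (hl : l.Prime) (hwl : w < l) : Nat.Coprime (Wp w) l := by
  unfold Wp
  apply Nat.Coprime.prod_left
  intro p hp
  rw [mem_filter, mem_Icc] at hp
  exact (Nat.coprime_primes hp.2 hl).2 (by omega)

theorem Wp_dvd (w : ℕ) {p : ℕ} (hp : p.Prime) (h : p ≤ w) : p ∣ Wp w := by
  unfold Wp
  apply Finset.dvd_prod_of_mem
  rw [mem_filter, mem_Icc]
  exact ⟨⟨hp.one_lt.le, h⟩, hp⟩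

theorem Wp_totient (w : ℕ) : ((Wp w).totient : ℝ) = kap w * Wp w := by
  have h1 := Nat.totient_eq_mul_prod_factors (Wp w)
  have h2 : (Wp w).primeFactors = (Icc 1 w).filter Nat.Prime := by
    unfold Wp
    exact Nat.primeFactors_prod fun p hp => (mem_filter.1 hp).2
  rw [h2] at h1
  have h3 : (((Wp w).totient : ℚ) : ℝ) = (((Wp w : ℚ) * ∏ p ∈ (Icc 1 w).filter Nat.Prime, (1 - (p : ℚ)⁻¹) : ℚ) : ℝ) := by
    rw [h1]
  push_cast at h3
  rw [h3]
  unfold kap
  rw [mul_comm]
  congr 1
  exact Finset.prod_congr rfl fun p _ => by rw [one_div]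

/-- the positions prime to `W` -/
def Rb (w H b : ℕ) : Finset ℕ := (Icc 1 H).filter (fun t => Nat.Coprime (Wp w) (b + t))

/-- (A4) -/
theorem Rb_card (w H b : ℕ) : ((Rb w H b).card : ℝ) ≤ kap w * H + Wp w := by
  have h1 : (Rb w H b).card ≤ ((Ico (b + 1) (b + 1 + H)).filter (Wp w).Coprime).card := by
    unfold Rb
    apply Finset.card_le_card_of_injOn (fun t => b + t)
    · intro t ht
      rw [mem_coe, mem_filter, mem_Icc] at ht
      rw [mem_coe, mem_filter, mem_Ico]
      exact ⟨⟨by show b + 1 ≤ b + t; omega, by show b + t < b + 1 + H; omega⟩, ht.2⟩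
    · intro t _ t' _ h
      simp only at h
      omega
  have h2 := Nat.Ico_filter_coprime_le (b + 1) H (Wp_pos w).ne'
  have h3 : ((Rb w H b).card : ℝ) ≤ ((Wp w).totient : ℝ) * ((H / Wp w : ℕ) + 1) := by exact_mod_cast h1.trans h2
  have hW0 : (0 : ℝ) < Wp w := by exact_mod_cast Wp_pos w
  have h4 : ((H / Wp w : ℕ) : ℝ) ≤ H / Wp w := Nat.cast_div_le
  have h5 := kap_pos w
  have h6 := kap_le w
  calc ((Rb w H b).card : ℝ) ≤ ((Wp w).totient : ℝ) * ((H / Wp w : ℕ) + 1) := h3
    _ = kap w * Wp w * ((H / Wp w : ℕ) + 1) := by rw [Wp_totient]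
    _ ≤ kap w * Wp w * ((H : ℝ) / Wp w + 1) := by gcongr
    _ = kap w * H + kap w * Wp w := by field_simp
    _ ≤ kap w * H + 1 * Wp w := by gcongr
    _ = _ := by ring

/-- (A5) -/
theorem FT_rough (k w H b : ℕ) (hw1 : 1 ≤ w) (hw : k ^ 3 ≤ w) (hH : 1 ≤ H) :
    ∑ T ∈ powersetCard k (Rb w H b), FT k w H T ≤
      (kap w * H + Wp w) ^ k / k.factorial + (H : ℝ) ^ k * (Real.exp ((2 * k ^ 3 : ℕ) / w) - 1) := by
  have h1 : powersetCard k (Rb w H b) ⊆ powersetCard k (Icc 1 H) := by
    apply Finset.powersetCard_mono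
    exact Finset.filter_subset _ _
  have hF1 : ∀ T, 0 ≤ FT k w H T - 1 := by
    intro T
    unfold FT
    rw [sub_nonneg]
    calc (1 : ℝ) = ∏ l ∈ Dc w H T, (1 : ℝ) := by rw [Finset.prod_const_one]
      _ ≤ _ := by
        apply Finset.prod_le_prod (fun _ _ => zero_le_one)
        intro l _
        have : 0 ≤ (k : ℝ) / l := by positivity
        linarith
  have h2 := FT_sum k w H hw1 hw hH
  have h3 : ∑ T ∈ powersetCard k (Rb w H b), (FT k w H T - 1) ≤
      (H : ℝ) ^ k * (Real.exp ((2 * k ^ 3 : ℕ) / w) - 1) :=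
    (Finset.sum_le_sum_of_subset_of_nonneg h1 fun T _ _ => hF1 T).trans h2
  have h4 : ((powersetCard k (Rb w H b)).card : ℝ) ≤ (kap w * H + Wp w) ^ k / k.factorial := by
    rw [Finset.card_powersetCard]
    refine (Nat.choose_le_pow_div k _).trans ?_
    have := Rb_card w H b
    gcongr
  have e : ∑ T ∈ powersetCard k (Rb w H b), FT k w H T =
      ∑ T ∈ powersetCard k (Rb w H b), (FT k w H T - 1) + ((powersetCard k (Rb w H b)).card : ℝ) := by
    rw [Finset.sum_sub_distrib, Finset.sum_const, nsmul_eq_mul, mul_one]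
    ring
  rw [e]
  linarith

end Pool.Agent.U26Z.MX
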