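import Mathlib

set_option autoImplicit false

/-!
# The denominator of the large sieve in dimension `k`: the sharp lower bound `(φ(W)/W log R) ^ k / k!`
-/

namespace Pool.Agent.U26Z.MX

open Finset

/-- the weighted sum over the squarefree products of elements of `P` -/
noncomputable def Wt (P : Finset ℕ) (a : ℕ → ℝ) (F : ℕ → ℝ) : ℝ :=
  ∑ s ∈ P.powerset, (∏ l ∈ s, a l) * F (∏ l ∈ s, l)

theorem Wt_empty (a F : ℕ → ℝ) : Wt ∅ a F = F 1 := by
  unfold Wt
  simp

theorem Wt_insert {P : Finset ℕ} {l : ℕ} (hl : l ∉ P) (a F : ℕ → ℝ) :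
    Wt (insert l P) a F = Wt P a F + a l * Wt P a (fun n => F (l * n)) := by
  unfold Wt
  rw [Finset.sum_powerset_insert hl, Finset.mul_sum]
  congr 1
  refine Finset.sum_congr rfl fun s hs => ?_
  have hls : l ∉ s := fun h => hl (Finset.mem_powerset.1 hs h)
  rw [Finset.prod_insert hls, Finset.prod_insert hls]
  ring

theorem Wt_mono {P : Finset ℕ} {a F F' : ℕ → ℝ} (ha : ∀ l ∈ P, 0 ≤ a l) (hF : ∀ n, F n ≤ F' n) :
    Wt P a F ≤ Wt P a F' := by
  unfold Wt
  refine Finset.sum_le_sum fun s hs => mul_le_mul_of_nonneg_left (hF _) ?_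
  exact Finset.prod_nonneg fun l hl => ha l (Finset.mem_powerset.1 hs hl)

theorem Wt_nonneg {P : Finset ℕ} {a F : ℕ → ℝ} (ha : ∀ l ∈ P, 0 ≤ a l) (hF : ∀ n, 0 ≤ F n) :
    0 ≤ Wt P a F := by
  unfold Wt
  refine Finset.sum_nonneg fun s hs => mul_nonneg ?_ (hF _)
  exact Finset.prod_nonneg fun l hl => ha l (Finset.mem_powerset.1 hs hl)

theorem Wt_congr {P : Finset ℕ} {a b F : ℕ → ℝ} (h : ∀ l ∈ P, a l = b l) : Wt P a F = Wt P b F := by
  unfold Wt
  refine Finset.sum_congr rfl fun s hs => ?_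
  congr 1
  exact Finset.prod_congr rfl fun l hl => h l (Finset.mem_powerset.1 hs hl)

theorem Wt_smul {P : Finset ℕ} {a F : ℕ → ℝ} (c : ℝ) : Wt P a (fun n => c * F n) = c * Wt P a F := by
  unfold Wt
  rw [Finset.mul_sum]
  refine Finset.sum_congr rfl fun s _ => by ring

/-- a nonincreasing function on the positive integers -/
def Anti (F : ℕ → ℝ) : Prop := (∀ n, 0 ≤ F n) ∧ ∀ m n, 1 ≤ m → 1 ≤ n → F (m * n) ≤ F n

theorem Anti.shift {F : ℕ → ℝ} (h : Anti F) (l : ℕ) (hl : 1 ≤ l) : Anti (fun n => F (l * n)) := by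
  refine ⟨fun n => h.1 _, fun m n hm hn => ?_⟩
  show F (l * (m * n)) ≤ F (l * n)
  rw [show l * (m * n) = m * (l * n) by ring]
  exact h.2 m (l * n) hm (Nat.mul_pos hl hn)

/-- (L1) -/
theorem Wt_add {P : Finset ℕ} {a b : ℕ → ℝ} (hP : ∀ l ∈ P, 1 ≤ l) (ha : ∀ l ∈ P, 0 ≤ a l)
    (hb : ∀ l ∈ P, 0 ≤ b l) :
    ∀ F : ℕ → ℝ, Anti F → Wt P (fun l => a l + b l) F ≤ (∏ l ∈ P, (1 + b l)) * Wt P a F := by
  classical
  induction P using Finset.induction_on with
  | empty =>
    intro F _
    rw [Wt_empty, Wt_empty, Finset.prod_empty, one_mul]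
  | insert l P hl ih =>
    intro F hF
    have hP' : ∀ q ∈ P, 1 ≤ q := fun q hq => hP q (mem_insert_of_mem hq)
    have ha' : ∀ q ∈ P, 0 ≤ a q := fun q hq => ha q (mem_insert_of_mem hq)
    have hb' : ∀ q ∈ P, 0 ≤ b q := fun q hq => hb q (mem_insert_of_mem hq)
    have hl1 := hP l (mem_insert_self _ _)
    have hal := ha l (mem_insert_self _ _)
    have hbl := hb l (mem_insert_self _ _)
    have h1 := ih hP' ha' hb' F hF
    have h2 := ih hP' ha' hb' _ (hF.shift l hl1)
    have h3 : 0 ≤ ∏ q ∈ P, (1 + b q) := Finset.prod_nonneg fun q hq => by have := hb' q hq; linarith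
    have h4 : Wt P a (fun n => F (l * n)) ≤ Wt P a F := by
      unfold Wt
      refine Finset.sum_le_sum fun s hs => mul_le_mul_of_nonneg_left ?_
        (Finset.prod_nonneg fun q hq => ha' q (Finset.mem_powerset.1 hs hq))
      have hpos : 0 < ∏ q ∈ s, q := Finset.prod_pos fun q hq => hP' q (Finset.mem_powerset.1 hs hq)
      exact hF.2 l _ hl1 hpos
    rw [Wt_insert hl, Wt_insert hl, Finset.prod_insert hl]
    calc Wt P (fun l => a l + b l) F + (a l + b l) * Wt P (fun l => a l + b l) (fun n => F (l * n))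
        ≤ (∏ q ∈ P, (1 + b q)) * Wt P a F + (a l + b l) * ((∏ q ∈ P, (1 + b q)) * Wt P a (fun n => F (l * n))) := by
          gcongr
      _ = (∏ q ∈ P, (1 + b q)) * (Wt P a F + a l * Wt P a (fun n => F (l * n)) +
          b l * Wt P a (fun n => F (l * n))) := by ring
      _ ≤ (∏ q ∈ P, (1 + b q)) * (Wt P a F + a l * Wt P a (fun n => F (l * n)) + b l *
          (Wt P a F + a l * Wt P a (fun n => F (l * n)))) := by
          have h5 : 0 ≤ Wt P a (fun n => F (l * n)) := Wt_nonneg ha' fun n => hF.1 _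
          have h6 : Wt P a (fun n => F (l * n)) ≤ Wt P a F + a l * Wt P a (fun n => F (l * n)) := by
            have := mul_nonneg hal h5
            linarith
          gcongr
      _ = _ := by ring

/-- (L2) -/
theorem Wt_conv {P : Finset ℕ} {a b c : ℕ → ℝ} (hP : ∀ l ∈ P, 1 ≤ l) (ha : ∀ l ∈ P, 0 ≤ a l)
    (hb : ∀ l ∈ P, 0 ≤ b l) (hc : ∀ l ∈ P, a l + b l + a l * b l ≤ c l) :
    ∀ F : ℕ → ℝ, Anti F → Wt P a (fun t => Wt P b (fun s => F (t * s))) ≤ Wt P c F := by
  classical
  induction P using Finset.induction_on with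
  | empty =>
    intro F _
    simp only [Wt_empty, mul_one, le_refl]
  | insert l P hl ih =>
    intro F hF
    have hP' : ∀ q ∈ P, 1 ≤ q := fun q hq => hP q (mem_insert_of_mem hq)
    have ha' : ∀ q ∈ P, 0 ≤ a q := fun q hq => ha q (mem_insert_of_mem hq)
    have hb' : ∀ q ∈ P, 0 ≤ b q := fun q hq => hb q (mem_insert_of_mem hq)
    have hc' : ∀ q ∈ P, a q + b q + a q * b q ≤ c q := fun q hq => hc q (mem_insert_of_mem hq)
    have hc0 : ∀ q ∈ P, 0 ≤ c q := fun q hq => by
      have := hc' q hq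
      have h1 := ha' q hq
      have h2 := hb' q hq
      have := mul_nonneg h1 h2
      linarith
    have hl1 := hP l (mem_insert_self _ _)
    have hal := ha l (mem_insert_self _ _)
    have hbl := hb l (mem_insert_self _ _)
    have hcl := hc l (mem_insert_self _ _)
    obtain ⟨U, hU⟩ : ∃ U : (ℕ → ℝ) → ℝ, U = fun F => Wt P a (fun t => Wt P b (fun s => F (t * s))) := ⟨_, rfl⟩
    have hadd : ∀ (F G : ℕ → ℝ) (x : ℝ), Wt P a (fun t => F t + x * G t) = Wt P a F + x * Wt P a G := by
      intro F G x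
      unfold Wt
      rw [Finset.mul_sum, ← Finset.sum_add_distrib]
      refine Finset.sum_congr rfl fun s _ => by ring
    have h1 : Wt (insert l P) a (fun t => Wt (insert l P) b (fun s => F (t * s))) =
        U F + b l * U (fun n => F (l * n)) + a l * (U (fun n => F (l * n)) + b l * U (fun n => F (l * (l * n)))) := by
      rw [Wt_insert hl, hU]
      congr 1
      · rw [← hadd]
        congr 1
        funext t
        rw [Wt_insert hl]
        congr 2
        congr 1
        funext s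
        congr 1
        ring
      · congr 1
        show Wt P a (fun t => Wt (insert l P) b (fun s => F (l * t * s))) = _
        rw [← hadd]
        congr 1
        funext t
        rw [Wt_insert hl]
        congr 1
        · congr 1
          funext s
          congr 1
          ring
        · congr 2
          funext s
          congr 1
          ring
    rw [h1, Wt_insert hl]
    have hF1 := hF.shift l hl1
    have hF2 : Anti (fun n => F (l * (l * n))) := hF1.shift l hl1
    have h2 : U F ≤ Wt P c F := by rw [hU]; exact ih hP' ha' hb' hc' F hF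
    have h3 : U (fun n => F (l * n)) ≤ Wt P c (fun n => F (l * n)) := by rw [hU]; exact ih hP' ha' hb' hc' _ hF1
    have h4 : U (fun n => F (l * (l * n))) ≤ U (fun n => F (l * n)) := by
      rw [hU]
      show Wt P a (fun t => Wt P b (fun s => F (l * (l * (t * s))))) ≤ Wt P a (fun t => Wt P b (fun s => F (l * (t * s))))
      unfold Wt
      refine Finset.sum_le_sum fun t ht => mul_le_mul_of_nonneg_left ?_
        (Finset.prod_nonneg fun q hq => ha' q (Finset.mem_powerset.1 ht hq))
      refine Finset.sum_le_sum fun s hs => mul_le_mul_of_nonneg_left ?_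
        (Finset.prod_nonneg fun q hq => hb' q (Finset.mem_powerset.1 hs hq))
      refine hF.2 l _ hl1 (Nat.mul_pos hl1 (Nat.mul_pos ?_ ?_))
      · exact Finset.prod_pos fun q hq => hP' q (Finset.mem_powerset.1 ht hq)
      · exact Finset.prod_pos fun q hq => hP' q (Finset.mem_powerset.1 hs hq)
    have h5 : 0 ≤ U (fun n => F (l * n)) := by
      rw [hU]
      exact Wt_nonneg ha' fun t => Wt_nonneg hb' fun s => hF.1 _
    have hab := mul_nonneg hal hbl
    calc U F + b l * U (fun n => F (l * n)) + a l * (U (fun n => F (l * n)) + b l * U (fun n => F (l * (l * n))))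
        = U F + (a l + b l) * U (fun n => F (l * n)) + (a l * b l) * U (fun n => F (l * (l * n))) := by ring
      _ ≤ U F + (a l + b l) * U (fun n => F (l * n)) + (a l * b l) * U (fun n => F (l * n)) := by gcongr
      _ = U F + (a l + b l + a l * b l) * U (fun n => F (l * n)) := by ring
      _ ≤ Wt P c F + (a l + b l + a l * b l) * Wt P c (fun n => F (l * n)) := by
          have : 0 ≤ a l + b l + a l * b l := by linarith
          gcongr
      _ ≤ _ := by
          have : 0 ≤ Wt P c (fun n => F (l * n)) := Wt_nonneg hc0 fun n => hF.1 _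
          gcongr

/-- the integers in `[1, N]` with all prime factors in `S` -/
def DS (N : ℕ) (S : Finset ℕ) : Finset ℕ := (Icc 1 N).filter (fun n => n.primeFactors ⊆ S)

/-- the harmonic sum of `F` over the integers with all prime factors in `S` -/
noncomputable def AS (N : ℕ) (S : Finset ℕ) (F : ℕ → ℝ) : ℝ := ∑ n ∈ DS N S, F n / n

theorem AS_nonneg (N : ℕ) (S : Finset ℕ) {F : ℕ → ℝ} (hF : ∀ n, 0 ≤ F n) : 0 ≤ AS N S F :=
  Finset.sum_nonneg fun n _ => div_nonneg (hF n) (Nat.cast_nonneg n)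

/-- `F` vanishes above `N` -/
def Vn (N : ℕ) (F : ℕ → ℝ) : Prop := ∀ n, N < n → F n = 0

theorem AS_step (N : ℕ) (S : Finset ℕ) {p : ℕ} (hp : p.Prime) (hpS : p ∉ S) {F : ℕ → ℝ} (hF : ∀ n, 0 ≤ F n)
    (hV : Vn N F) :
    AS N (insert p S) F ≤ AS N S F + 1 / (p : ℝ) * AS N (insert p S) (fun n => F (p * n)) := by
  classical
  unfold AS
  have hsub : DS N (insert p S) ⊆ DS N S ∪ (DS N (insert p S)).image (fun n => p * n) := by
    intro n hn
    unfold DS at hn ⊢
    rw [mem_filter, mem_Icc] at hn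
    rw [mem_union]
    by_cases hpn : p ∣ n
    · right
      obtain ⟨m, rfl⟩ := hpn
      rw [mem_image]
      have hm0 : 0 < m := Nat.pos_of_mul_pos_left hn.1.1 |> fun h => by
        rcases Nat.eq_zero_or_pos m with h1 | h1
        · rw [h1, mul_zero] at hn; omega
        · exact h1
      refine ⟨m, ?_, rfl⟩
      rw [mem_filter, mem_Icc]
      refine ⟨⟨hm0, le_trans (Nat.le_mul_of_pos_left m hp.pos) hn.1.2⟩, ?_⟩
      exact (Nat.primeFactors_mono (dvd_mul_left m p) (by omega)).trans hn.2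
    · left
      rw [mem_filter, mem_Icc]
      refine ⟨hn.1, fun q hq => ?_⟩
      have h1 := hn.2 hq
      rw [mem_insert] at h1
      rcases h1 with h1 | h1
      · exact absurd (h1 ▸ Nat.dvd_of_mem_primeFactors hq) hpn
      · exact h1
  calc ∑ n ∈ DS N (insert p S), F n / n ≤
      ∑ n ∈ DS N S ∪ (DS N (insert p S)).image (fun n => p * n), F n / n :=
        Finset.sum_le_sum_of_subset_of_nonneg hsub fun n _ _ => div_nonneg (hF n) (Nat.cast_nonneg n)
    _ ≤ ∑ n ∈ DS N S, F n / n + ∑ n ∈ (DS N (insert p S)).image (fun n => p * n), F n / n := by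
        rw [← Finset.sum_union_inter]
        have : 0 ≤ ∑ n ∈ DS N S ∩ (DS N (insert p S)).image (fun n => p * n), F n / n :=
          Finset.sum_nonneg fun n _ => div_nonneg (hF n) (Nat.cast_nonneg n)
        linarith
    _ = _ := by
        congr 1
        rw [Finset.sum_image (fun a _ b _ h => Nat.eq_of_mul_eq_mul_left hp.pos h), Finset.mul_sum]
        refine Finset.sum_congr rfl fun n _ => ?_
        push_cast
        rw [one_div, div_mul_eq_div_div, div_right_comm, div_eq_inv_mul (F (p * n) / n)]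

theorem AS_insert (S : Finset ℕ) {p : ℕ} (hp : p.Prime) (hpS : p ∉ S) : ∀ (N : ℕ) (F : ℕ → ℝ), Anti F →
    Vn N F → AS N (insert p S) F ≤ AS N S F + 1 / ((p : ℝ) - 1) * AS N S (fun n => F (p * n)) := by
  intro N
  have hp1 : (1 : ℝ) < p := by exact_mod_cast hp.one_lt
  have hp0 : (0 : ℝ) < p := by linarith
  induction N using Nat.strong_induction_on with
  | _ N ih =>
    intro F hF hV
    rcases Nat.eq_zero_or_pos N with h0 | h0
    · have h1 : AS N (insert p S) F = 0 := by
        unfold AS DS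
        rw [h0]
        simp
      rw [h1]
      have h2 := AS_nonneg N S hF.1
      have h3 := AS_nonneg N S (F := fun n => F (p * n)) (fun n => hF.1 _)
      have h4 : 0 ≤ 1 / ((p : ℝ) - 1) := by
        apply div_nonneg zero_le_one
        linarith
      have := mul_nonneg h4 h3
      linarith
    · have h1 := AS_step N S hp hpS hF.1 hV
      have hlt : N / p < N := Nat.div_lt_self h0 hp.one_lt
      have hF1 := hF.shift p hp.one_lt.le
      have hV1 : Vn (N / p) (fun n => F (p * n)) := by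
        intro n hn
        exact hV _ (by
          have := (Nat.div_lt_iff_lt_mul hp.pos).1 hn
          rw [mul_comm]
          exact this)
      -- the sums over `[1, N]` and `[1, N / p]` agree
      have hre : ∀ (T : Finset ℕ) (G : ℕ → ℝ), Vn (N / p) G → AS N T G = AS (N / p) T G := by
        intro T G hG
        unfold AS
        symm
        apply Finset.sum_subset
        · intro n hn
          unfold DS at hn ⊢
          rw [mem_filter, mem_Icc] at hn ⊢
          exact ⟨⟨hn.1.1, hn.1.2.trans (Nat.div_le_self _ _)⟩, hn.2⟩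
        · intro n hn hn2
          unfold DS at hn hn2
          rw [mem_filter, mem_Icc] at hn hn2
          have : N / p < n := by
            by_contra hcon
            exact hn2 ⟨⟨hn.1.1, by omega⟩, hn.2⟩
          rw [hG n this, zero_div]
      have h2 := ih (N / p) hlt _ hF1 hV1
      rw [← hre _ _ hV1, ← hre _ _ hV1] at h2
      have hV2 : Vn (N / p) (fun n => F (p * (p * n))) := by
        intro n hn
        exact hV1 _ (lt_of_lt_of_le hn (Nat.le_mul_of_pos_left n hp.pos))
      rw [← hre _ _ hV2] at h2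
      have h3 : AS N S (fun n => F (p * (p * n))) ≤ AS N S (fun n => F (p * n)) := by
        unfold AS
        refine Finset.sum_le_sum fun n hn => ?_
        unfold DS at hn
        rw [mem_filter, mem_Icc] at hn
        apply div_le_div_of_nonneg_right _ (Nat.cast_nonneg n)
        exact hF.2 p (p * n) hp.one_lt.le (Nat.mul_pos hp.pos hn.1.1)
      obtain ⟨A, hA⟩ : ∃ A, A = AS N S (fun n => F (p * n)) := ⟨_, rfl⟩
      have hA0 : 0 ≤ A := by rw [hA]; exact AS_nonneg N S (fun n => hF.1 _)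
      have h4 : AS N (insert p S) (fun n => F (p * n)) ≤ A + 1 / ((p : ℝ) - 1) * A := by
        refine h2.trans ?_
        rw [← hA]
        have h5 : 0 ≤ 1 / ((p : ℝ) - 1) := div_nonneg zero_le_one (by linarith)
        have h6 := mul_le_mul_of_nonneg_left (hA ▸ h3) h5
        linarith
      calc AS N (insert p S) F ≤ AS N S F + 1 / (p : ℝ) * AS N (insert p S) (fun n => F (p * n)) := h1
        _ ≤ AS N S F + 1 / (p : ℝ) * (A + 1 / ((p : ℝ) - 1) * A) := by gcongr
        _ = AS N S F + 1 / ((p : ℝ) - 1) * A := by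
            have : (p : ℝ) - 1 ≠ 0 := by linarith
            field_simp
            ring
        _ = _ := by rw [hA]

/-- (L3) -/
theorem AS_le {S₁ : Finset ℕ} (h1 : ∀ p ∈ S₁, p.Prime) (N : ℕ) : ∀ (S₂ : Finset ℕ), (∀ p ∈ S₂, p.Prime) →
    Disjoint S₁ S₂ → ∀ F : ℕ → ℝ, Anti F → Vn N F →
    AS N (S₁ ∪ S₂) F ≤ (∏ p ∈ S₁, (1 - 1 / (p : ℝ))⁻¹) * Wt S₂ (fun l => 1 / ((l : ℝ) - 1)) F := by
  classical
  intro S₂
  induction S₂ using Finset.induction_on with
  | empty =>
    intro _ _ F hF hV
    rw [Wt_empty, Finset.union_empty]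
    clear * - h1 hF hV
    induction S₁ using Finset.induction_on with
    | empty =>
      rw [Finset.prod_empty, one_mul]
      have h2 : DS N ∅ ⊆ {1} := by
        intro n hn
        unfold DS at hn
        rw [mem_filter, mem_Icc, Finset.subset_empty, Nat.primeFactors_eq_empty] at hn
        rw [mem_singleton]
        omega
      calc AS N ∅ F ≤ ∑ n ∈ ({1} : Finset ℕ), F n / n := by
            unfold AS
            exact Finset.sum_le_sum_of_subset_of_nonneg h2 fun n _ _ => div_nonneg (hF.1 n) (Nat.cast_nonneg n)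
        _ = F 1 := by simp
    | insert p S hpS ih =>
      have hp := h1 p (mem_insert_self _ _)
      have hp1 : (1 : ℝ) < p := by exact_mod_cast hp.one_lt
      have h3 := ih (fun q hq => h1 q (mem_insert_of_mem hq))
      have h4 := AS_insert S hp hpS N F hF hV
      have h5 : AS N S (fun n => F (p * n)) ≤ AS N S F := by
        unfold AS
        refine Finset.sum_le_sum fun n hn => ?_
        unfold DS at hn
        rw [mem_filter, mem_Icc] at hn
        apply div_le_div_of_nonneg_right _ (Nat.cast_nonneg n)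
        exact hF.2 p n hp.one_lt.le hn.1.1
      rw [Finset.prod_insert hpS]
      have e : 1 + 1 / ((p : ℝ) - 1) = (1 - 1 / (p : ℝ))⁻¹ := by
        have h6 : (p : ℝ) - 1 ≠ 0 := by linarith
        have h7 : (p : ℝ) ≠ 0 := by linarith
        have h8 : 1 - 1 / (p : ℝ) = (p - 1) / p := by field_simp
        rw [h8, inv_div]
        field_simp
        ring
      have h9 : 0 ≤ 1 / ((p : ℝ) - 1) := div_nonneg zero_le_one (by linarith)
      calc AS N (insert p S) F ≤ AS N S F + 1 / ((p : ℝ) - 1) * AS N S (fun n => F (p * n)) := h4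
        _ ≤ AS N S F + 1 / ((p : ℝ) - 1) * AS N S F := by gcongr
        _ = (1 - 1 / (p : ℝ))⁻¹ * AS N S F := by rw [← e]; ring
        _ ≤ (1 - 1 / (p : ℝ))⁻¹ * ((∏ p ∈ S, (1 - 1 / (p : ℝ))⁻¹) * F 1) := by
            have : 0 ≤ (1 - 1 / (p : ℝ))⁻¹ := by rw [← e]; linarith
            gcongr
        _ = _ := by ring
  | insert l S hlS ih =>
    intro hS hd F hF hV
    have hl := hS l (mem_insert_self _ _)
    have hS' : ∀ p ∈ S, p.Prime := fun q hq => hS q (mem_insert_of_mem hq)
    have hd' : Disjoint S₁ S := hd.mono_right (Finset.subset_insert _ _)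
    have hl1 : l ∉ S₁ := fun h => (Finset.disjoint_left.1 hd h) (mem_insert_self _ _)
    have hlu : l ∉ S₁ ∪ S := by
      rw [mem_union]
      tauto
    have e1 : S₁ ∪ insert l S = insert l (S₁ ∪ S) := by
      ext q
      simp only [mem_union, mem_insert]
      tauto
    have hlr : (1 : ℝ) < l := by exact_mod_cast hl.one_lt
    have h9 : 0 ≤ 1 / ((l : ℝ) - 1) := div_nonneg zero_le_one (by linarith)
    have h2 := ih hS' hd' F hF hV
    have h3 := ih hS' hd' _ (hF.shift l hl.one_lt.le) (fun n hn => hV _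
      (lt_of_lt_of_le hn (Nat.le_mul_of_pos_left n hl.pos)))
    rw [e1, Wt_insert hlS]
    calc AS N (insert l (S₁ ∪ S)) F ≤ AS N (S₁ ∪ S) F + 1 / ((l : ℝ) - 1) * AS N (S₁ ∪ S) (fun n => F (l * n)) :=
          AS_insert _ hl hlu N F hF hV
      _ ≤ (∏ p ∈ S₁, (1 - 1 / (p : ℝ))⁻¹) * Wt S (fun l => 1 / ((l : ℝ) - 1)) F +
          1 / ((l : ℝ) - 1) * ((∏ p ∈ S₁, (1 - 1 / (p : ℝ))⁻¹) * Wt S (fun l => 1 / ((l : ℝ) - 1)) (fun n => F (l * n))) := by
          gcongr
      _ = _ := by ring

/-- `max (log x, 0) ^ k / k!`, and `0` for `x < 1` -/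
noncomputable def fk (k : ℕ) (x : ℝ) : ℝ := if 1 ≤ x then Real.log x ^ k / k.factorial else 0

theorem fk_nonneg (k : ℕ) (x : ℝ) : 0 ≤ fk k x := by
  unfold fk
  split_ifs with h
  · have := Real.log_nonneg h
    positivity
  · exact le_rfl

theorem fk_mono (k : ℕ) {x y : ℝ} (h : x ≤ y) : fk k x ≤ fk k y := by
  unfold fk
  split_ifs with h1 h2 h2
  · have h3 := Real.log_nonneg h1
    have h4 := Real.log_le_log (by linarith) h
    gcongr
  · exact absurd (h1.trans h) h2
  · have := Real.log_nonneg h2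
    positivity
  · exact le_rfl

theorem pow_diff (k : ℕ) {a b : ℝ} (hb : 0 ≤ b) (hab : b ≤ a) : a ^ (k + 1) - b ^ (k + 1) ≤ (k + 1) * a ^ k * (a - b) := by
  induction k with
  | zero => simp
  | succ k ih =>
    have ha : 0 ≤ a := hb.trans hab
    have h1 : b ^ (k + 1) ≤ a ^ (k + 1) := pow_le_pow_left₀ hb hab _
    have h2 := mul_le_mul_of_nonneg_left ih ha
    have h3 := mul_le_mul_of_nonneg_left h1 (sub_nonneg.2 hab)
    push_cast
    have e1 : a ^ (k + 1 + 1) - b ^ (k + 1 + 1) = a * (a ^ (k + 1) - b ^ (k + 1)) + (a - b) * b ^ (k + 1) := by ring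
    rw [e1]
    have e2 : ((k : ℝ) + 1 + 1) * a ^ (k + 1) * (a - b) = a * ((k + 1) * a ^ k * (a - b)) + (a - b) * a ^ (k + 1) := by ring
    rw [e2]
    linarith

/-- (L4) -/
theorem fk_sum (k : ℕ) {R : ℝ} {N : ℕ} (hN : R < N + 1) :
    fk (k + 1) R ≤ ∑ n ∈ Icc 1 N, fk k (R / n) / n := by
  have key : ∀ n : ℕ, 1 ≤ n → fk (k + 1) (R / n) - fk (k + 1) (R / (n + 1)) ≤ fk k (R / n) / n := by
    intro n hn
    have hn0 : (0 : ℝ) < n := by exact_mod_cast hn
    by_cases h1 : 1 ≤ R / n
    · have hRn : (n : ℝ) ≤ R := by rwa [le_div_iff₀ hn0, one_mul] at h1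
      have hR0 : 0 < R := by linarith
      obtain ⟨a, ha⟩ : ∃ a, a = Real.log (R / n) := ⟨_, rfl⟩
      obtain ⟨b, hb⟩ : ∃ b, b = max (Real.log (R / (n + 1))) 0 := ⟨_, rfl⟩
      have ha0 : 0 ≤ a := by rw [ha]; exact Real.log_nonneg h1
      have hb0 : 0 ≤ b := by rw [hb]; exact le_max_right _ _
      have hlog : Real.log (R / n) - Real.log (R / (n + 1)) ≤ 1 / n := by
        rw [Real.log_div hR0.ne' hn0.ne', Real.log_div hR0.ne' (by positivity)]
        have h2 : Real.log ((n + 1) / n) ≤ (n + 1) / n - 1 := Real.log_le_sub_one_of_pos (by positivity)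
        rw [Real.log_div (by positivity) hn0.ne'] at h2
        have h3 : ((n : ℝ) + 1) / n - 1 = 1 / n := by field_simp; ring
        linarith
      have hba : b ≤ a := by
        rw [hb, ha]
        apply max_le
        · apply Real.log_le_log (by positivity)
          apply div_le_div_of_nonneg_left hR0.le hn0 (by linarith)
        · exact Real.log_nonneg h1
      have hab : a - b ≤ 1 / n := by
        have : Real.log (R / (n + 1)) ≤ b := by rw [hb]; exact le_max_left _ _
        rw [ha]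
        linarith
      have e1 : fk (k + 1) (R / n) = a ^ (k + 1) / (k + 1).factorial := by
        unfold fk
        rw [if_pos h1, ha]
      have e2 : fk (k + 1) (R / (n + 1)) = b ^ (k + 1) / (k + 1).factorial := by
        unfold fk
        split_ifs with h4
        · rw [hb, max_eq_left (Real.log_nonneg h4)]
        · rw [hb, max_eq_right, zero_pow (by omega), zero_div]
          apply Real.log_nonpos (by positivity)
          linarith
      have e3 : fk k (R / n) = a ^ k / k.factorial := by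
        unfold fk
        rw [if_pos h1, ha]
      rw [e1, e2, e3, ← sub_div, Nat.factorial_succ]
      have h5 := pow_diff k hb0 hba
      have hk0 : (0 : ℝ) < k.factorial := by exact_mod_cast Nat.factorial_pos k
      have hk1 : (0 : ℝ) < (k : ℝ) + 1 := by positivity
      push_cast
      calc (a ^ (k + 1) - b ^ (k + 1)) / (((k : ℝ) + 1) * k.factorial) ≤
          ((k + 1) * a ^ k * (a - b)) / (((k : ℝ) + 1) * k.factorial) := by gcongr
        _ ≤ ((k + 1) * a ^ k * (1 / n)) / (((k : ℝ) + 1) * k.factorial) := by gcongr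
        _ = _ := by field_simp
    · have e1 : fk (k + 1) (R / n) = 0 := by
        unfold fk
        rw [if_neg h1]
      rw [e1]
      have h2 := fk_nonneg (k + 1) (R / (n + 1))
      have h3 : 0 ≤ fk k (R / n) / n := div_nonneg (fk_nonneg _ _) hn0.le
      linarith
  have h1 : fk (k + 1) R - fk (k + 1) (R / (N + 1)) ≤ ∑ n ∈ Icc 1 N, fk k (R / n) / n := by
    clear hN
    induction N with
    | zero => simp
    | succ N ih =>
      rw [Finset.sum_Icc_succ_top (by omega)]
      have h2 := key (N + 1) (by omega)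
      push_cast at h2 ⊢
      linarith
  have h2 : fk (k + 1) (R / (N + 1)) = 0 := by
    unfold fk
    rw [if_neg]
    rw [not_le, div_lt_one (by positivity)]
    exact hN
  linarith

/-- the primes in `(w, N]` -/
def Pw (w N : ℕ) : Finset ℕ := (Ioc w N).filter Nat.Prime

/-- the proportion of the integers without prime factors up to `w` -/
noncomputable def kap (w : ℕ) : ℝ := ∏ p ∈ (Icc 1 w).filter Nat.Prime, (1 - 1 / (p : ℝ))

theorem kap_pos (w : ℕ) : 0 < kap w := by
  unfold kap
  refine Finset.prod_pos fun p hp => ?_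
  rw [mem_filter] at hp
  have : (1 : ℝ) < p := by exact_mod_cast hp.2.one_lt
  rw [sub_pos, div_lt_one (by linarith)]
  exact this

theorem kap_le (w : ℕ) : kap w ≤ 1 := by
  unfold kap
  refine Finset.prod_le_one (fun p hp => ?_) fun p hp => ?_
  · rw [mem_filter] at hp
    have : (1 : ℝ) < p := by exact_mod_cast hp.2.one_lt
    rw [sub_nonneg, div_le_one (by linarith)]
    exact this.le
  · have : 0 ≤ 1 / (p : ℝ) := by positivity
    linarith

theorem anti_of {f : ℝ → ℝ} (h0 : ∀ x, 0 ≤ f x) (hm : ∀ x y, x ≤ y → f x ≤ f y) {R : ℝ} (hR : 0 ≤ R) :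
    Anti (fun n : ℕ => f (R / n)) := by
  refine ⟨fun n => h0 _, fun m n hm' hn => ?_⟩
  apply hm
  push_cast
  have hm0 : (1 : ℝ) ≤ m := by exact_mod_cast hm'
  have hn0 : (0 : ℝ) < n := by exact_mod_cast hn
  apply div_le_div_of_nonneg_left hR hn0
  nlinarith

theorem sum_prime_sq (w N : ℕ) (hw : 2 ≤ w) :
    ∑ l ∈ Pw w N, 1 / ((l : ℝ) - 1) ^ 2 ≤ (4 : ℝ) / w := by
  have hw0 : (0 : ℝ) < w := by exact_mod_cast (by omega : 0 < w)
  rcases le_total w N with h | h
  · have h1 := sum_Ioc_inv_sq_le_sub (α := ℝ) (by omega : w ≠ 0) h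
    have h2 : (0 : ℝ) ≤ (N : ℝ)⁻¹ := by positivity
    calc ∑ l ∈ Pw w N, 1 / ((l : ℝ) - 1) ^ 2 ≤ ∑ l ∈ Pw w N, 4 * ((l : ℝ) ^ 2)⁻¹ := by
          refine Finset.sum_le_sum fun l hl => ?_
          unfold Pw at hl
          rw [mem_filter, mem_Ioc] at hl
          have h3 : (2 : ℝ) ≤ l := by exact_mod_cast hl.2.two_le
          rw [← one_div, mul_one_div, div_le_div_iff₀ (by nlinarith) (by positivity)]
          nlinarith
      _ ≤ ∑ l ∈ Ioc w N, 4 * ((l : ℝ) ^ 2)⁻¹ :=
          Finset.sum_le_sum_of_subset_of_nonneg (Finset.filter_subset _ _) fun l _ _ => by positivity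
      _ = 4 * ∑ l ∈ Ioc w N, ((l : ℝ) ^ 2)⁻¹ := by rw [Finset.mul_sum]
      _ ≤ 4 * (w : ℝ)⁻¹ := by
          have : ∑ l ∈ Ioc w N, ((l : ℝ) ^ 2)⁻¹ ≤ (w : ℝ)⁻¹ := by linarith
          linarith
      _ = _ := by rw [div_eq_mul_inv]
  · unfold Pw
    rw [Finset.Ioc_eq_empty (by omega), Finset.filter_empty, Finset.sum_empty]
    positivity

theorem Wt_ge {P : Finset ℕ} {a F : ℕ → ℝ} (ha : ∀ l ∈ P, 0 ≤ a l) (hF : ∀ n, 0 ≤ F n) : F 1 ≤ Wt P a F := by
  unfold Wt
  have h1 := Finset.single_le_sum (f := fun s : Finset ℕ => (∏ l ∈ s, a l) * F (∏ l ∈ s, l)) (s := P.powerset)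
    (fun s hs => mul_nonneg (Finset.prod_nonneg fun l hl => ha l (Finset.mem_powerset.1 hs hl)) (hF _))
    (Finset.empty_mem_powerset P)
  simpa using h1

/-- (L5) -/
theorem G_lower (w N : ℕ) (hw : 2 ≤ w) : ∀ (k : ℕ) (R : ℝ), 0 ≤ R → R < N + 1 →
    Real.exp (-(4 * (k : ℝ) ^ 2 / w)) * kap w ^ k * fk k R ≤
      Wt (Pw w N) (fun l => (k : ℝ) / l) (fun n => fk 0 (R / n)) := by
  have hw0 : (0 : ℝ) < w := by exact_mod_cast (by omega : 0 < w)
  have hP : ∀ l ∈ Pw w N, l.Prime ∧ w < l := by
    intro l hl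
    unfold Pw at hl
    rw [mem_filter, mem_Ioc] at hl
    exact ⟨hl.2, hl.1.1⟩
  have hP1 : ∀ l ∈ Pw w N, 1 ≤ l := fun l hl => (hP l hl).1.one_lt.le
  have hPr : ∀ l ∈ Pw w N, (2 : ℝ) ≤ l := fun l hl => by exact_mod_cast (hP l hl).1.two_le
  intro k
  induction k with
  | zero =>
    intro R _ _
    simp only [CharP.cast_eq_zero, zero_pow two_ne_zero, mul_zero, zero_div, neg_zero, Real.exp_zero, pow_zero, one_mul]
    have h1 := Wt_ge (P := Pw w N) (a := fun _ => (0 : ℝ)) (F := fun n : ℕ => fk 0 (R / n)) (fun _ _ => le_rfl)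
      (fun n => fk_nonneg _ _)
    simpa using h1
  | succ k ih =>
    intro R hR0 hRN
    have hfa : ∀ j : ℕ, Anti (fun n : ℕ => fk j (R / n)) := fun j =>
      anti_of (f := fk j) (fk_nonneg j) (fun x y h => fk_mono j h) hR0
    -- (L2)
    have h2 := Wt_conv (P := Pw w N) (a := fun l : ℕ => 1 / ((l : ℝ) + k)) (b := fun l : ℕ => (k : ℝ) / l)
      (c := fun l : ℕ => ((k + 1 : ℕ) : ℝ) / l) hP1 (fun l _ => by positivity) (fun l _ => by positivity)
      (by
        intro l hl
        have h1 := hPr l hl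
        have h3 : (0 : ℝ) ≤ k := Nat.cast_nonneg k
        apply le_of_eq
        push_cast
        field_simp
        ring) _ (hfa 0)
    refine le_trans ?_ h2
    -- induction hypothesis
    obtain ⟨C, hC⟩ : ∃ C, C = Real.exp (-(4 * (k : ℝ) ^ 2 / w)) * kap w ^ k := ⟨_, rfl⟩
    have hC0 : 0 ≤ C := by
      rw [hC]
      have := (kap_pos w).le
      positivity
    have h3 : C * Wt (Pw w N) (fun l : ℕ => 1 / ((l : ℝ) + k)) (fun n => fk k (R / n)) ≤
        Wt (Pw w N) (fun l : ℕ => 1 / ((l : ℝ) + k))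
        (fun t => Wt (Pw w N) (fun l : ℕ => (k : ℝ) / l) (fun s => fk 0 (R / ((t * s : ℕ) : ℝ)))) := by
      rw [← Wt_smul]
      unfold Wt
      refine Finset.sum_le_sum fun t ht => mul_le_mul_of_nonneg_left ?_
        (Finset.prod_nonneg fun q hq => by positivity)
      have ht1 : (1 : ℝ) ≤ ((∏ l ∈ t, l : ℕ) : ℝ) := by
        have : 0 < ∏ l ∈ t, l := Finset.prod_pos fun q hq => hP1 q (Finset.mem_powerset.1 ht hq)
        exact_mod_cast this
      have h4 := ih (R / ((∏ l ∈ t, l : ℕ) : ℝ)) (by positivity)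
        (lt_of_le_of_lt (div_le_self hR0 ht1) hRN)
      rw [← hC] at h4
      refine h4.trans (le_of_eq ?_)
      unfold Wt
      refine Finset.sum_congr rfl fun s _ => ?_
      congr 2
      push_cast
      rw [div_div]
    refine le_trans ?_ h3
    -- (L1)
    have h4 := Wt_add (P := Pw w N) (a := fun l : ℕ => 1 / ((l : ℝ) + k))
      (b := fun l : ℕ => 1 / ((l : ℝ) - 1) - 1 / ((l : ℝ) + k)) hP1 (fun l _ => by positivity)
      (by
        intro l hl
        have h1 := hPr l hl
        have h3 : (0 : ℝ) ≤ k := Nat.cast_nonneg k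
        rw [sub_nonneg]
        exact one_div_le_one_div_of_le (by linarith) (by linarith)) _ (hfa k)
    have h5 : ∏ l ∈ Pw w N, (1 + (1 / ((l : ℝ) - 1) - 1 / ((l : ℝ) + k))) ≤ Real.exp (4 * ((k : ℝ) + 1) / w) := by
      calc ∏ l ∈ Pw w N, (1 + (1 / ((l : ℝ) - 1) - 1 / ((l : ℝ) + k))) ≤
          ∏ l ∈ Pw w N, Real.exp (((k : ℝ) + 1) * (1 / ((l : ℝ) - 1) ^ 2)) := by
            apply Finset.prod_le_prod
            · intro l hl
              have h1 := hPr l hl
              have h3 : (0 : ℝ) ≤ k := Nat.cast_nonneg k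
              have : 1 / ((l : ℝ) + k) ≤ 1 / ((l : ℝ) - 1) := one_div_le_one_div_of_le (by linarith) (by linarith)
              linarith
            · intro l hl
              have h1 := hPr l hl
              have h3 : (0 : ℝ) ≤ k := Nat.cast_nonneg k
              have h6 := Real.add_one_le_exp (((k : ℝ) + 1) * (1 / ((l : ℝ) - 1) ^ 2))
              have h7 : 1 / ((l : ℝ) - 1) - 1 / ((l : ℝ) + k) ≤ ((k : ℝ) + 1) * (1 / ((l : ℝ) - 1) ^ 2) := by
                have h8 : (0 : ℝ) < (l : ℝ) - 1 := by linarith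
                have h9 : (0 : ℝ) < (l : ℝ) + k := by linarith
                rw [div_sub_div _ _ h8.ne' h9.ne', mul_one_div, div_le_div_iff₀ (by positivity) (by positivity)]
                have e1 : 1 * ((l : ℝ) + k) - ((l : ℝ) - 1) * 1 = k + 1 := by ring
                rw [e1]
                have h10 : ((l : ℝ) - 1) * ((l : ℝ) - 1) ≤ ((l : ℝ) - 1) * ((l : ℝ) + k) := by
                  apply mul_le_mul_of_nonneg_left (by linarith) h8.le
                have h11 : (0 : ℝ) ≤ (k : ℝ) + 1 := by linarith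
                calc ((k : ℝ) + 1) * ((l : ℝ) - 1) ^ 2 = ((k : ℝ) + 1) * (((l : ℝ) - 1) * ((l : ℝ) - 1)) := by ring
                  _ ≤ ((k : ℝ) + 1) * (((l : ℝ) - 1) * ((l : ℝ) + k)) := mul_le_mul_of_nonneg_left h10 h11
              linarith
        _ = Real.exp (((k : ℝ) + 1) * ∑ l ∈ Pw w N, 1 / ((l : ℝ) - 1) ^ 2) := by
            rw [← Real.exp_sum, Finset.mul_sum]
        _ ≤ _ := by
            apply Real.exp_le_exp.2
            have h6 := sum_prime_sq w N hw
            have h7 : (0 : ℝ) ≤ (k : ℝ) + 1 := by positivity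
            calc ((k : ℝ) + 1) * ∑ l ∈ Pw w N, 1 / ((l : ℝ) - 1) ^ 2 ≤ ((k : ℝ) + 1) * (4 / w) := by gcongr
              _ = _ := by ring
    have h6 : Wt (Pw w N) (fun l : ℕ => 1 / ((l : ℝ) - 1)) (fun n => fk k (R / n)) ≤
        Real.exp (4 * ((k : ℝ) + 1) / w) * Wt (Pw w N) (fun l : ℕ => 1 / ((l : ℝ) + k)) (fun n => fk k (R / n)) := by
      have e : Wt (Pw w N) (fun l : ℕ => 1 / ((l : ℝ) - 1)) (fun n => fk k (R / n)) =
          Wt (Pw w N) (fun l : ℕ => 1 / ((l : ℝ) + k) + (1 / ((l : ℝ) - 1) - 1 / ((l : ℝ) + k))) (fun n => fk k (R / n)) :=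
        Wt_congr fun l _ => by ring
      rw [e]
      refine h4.trans ?_
      have : 0 ≤ Wt (Pw w N) (fun l : ℕ => 1 / ((l : ℝ) + k)) (fun n => fk k (R / n)) :=
        Wt_nonneg (fun l _ => by positivity) fun n => fk_nonneg _ _
      gcongr
    -- (L3)
    have hV : Vn N (fun n : ℕ => fk k (R / n)) := by
      intro n hn
      have hn1 : (N : ℝ) + 1 ≤ n := by exact_mod_cast hn
      have hn0 : (0 : ℝ) < n := by
        have : (0 : ℝ) ≤ N := Nat.cast_nonneg N
        linarith
      show fk k (R / n) = 0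
      unfold fk
      rw [if_neg]
      rw [not_le, div_lt_one hn0]
      linarith
    have hS1 : ∀ p ∈ (Icc 1 w).filter Nat.Prime, p.Prime := fun p hp => (mem_filter.1 hp).2
    have hdisj : Disjoint ((Icc 1 w).filter Nat.Prime) (Pw w N) := by
      rw [Finset.disjoint_left]
      intro p hp hp2
      rw [mem_filter, mem_Icc] at hp
      have := (hP p hp2).2
      omega
    have h7 := AS_le hS1 N (Pw w N) (fun p hp => (hP p hp).1) hdisj _ (hfa k) hV
    have h8 : AS N ((Icc 1 w).filter Nat.Prime ∪ Pw w N) (fun n : ℕ => fk k (R / n)) =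
        ∑ n ∈ Icc 1 N, fk k (R / n) / n := by
      unfold AS DS
      rw [Finset.filter_true_of_mem]
      intro n hn p hp
      rw [mem_Icc] at hn
      have hpp := Nat.prime_of_mem_primeFactors hp
      have hpn := Nat.le_of_dvd (by omega) (Nat.dvd_of_mem_primeFactors hp)
      unfold Pw
      rw [mem_union, mem_filter, mem_filter, mem_Icc, mem_Ioc]
      rcases le_or_gt p w with h | h
      · left; exact ⟨⟨hpp.one_lt.le, h⟩, hpp⟩
      · right; exact ⟨⟨h, by omega⟩, hpp⟩
    have h9 := fk_sum k hRN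
    have hkinv : (∏ p ∈ (Icc 1 w).filter Nat.Prime, (1 - 1 / (p : ℝ))⁻¹) = (kap w)⁻¹ := by
      unfold kap
      rw [Finset.prod_inv_distrib]
    rw [h8, hkinv] at h7
    have hk0 := kap_pos w
    have h10 : kap w * fk (k + 1) R ≤ Wt (Pw w N) (fun l : ℕ => 1 / ((l : ℝ) - 1)) (fun n => fk k (R / n)) := by
      have h11 := h9.trans h7
      calc kap w * fk (k + 1) R ≤ kap w * ((kap w)⁻¹ *
          Wt (Pw w N) (fun l : ℕ => 1 / ((l : ℝ) - 1)) (fun n => fk k (R / n))) := by gcongr
        _ = _ := by rw [← mul_assoc, mul_inv_cancel₀ hk0.ne', one_mul]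
    have h12 := h10.trans h6
    obtain ⟨Z, hZ⟩ : ∃ Z, Z = Wt (Pw w N) (fun l : ℕ => 1 / ((l : ℝ) + k)) (fun n => fk k (R / n)) := ⟨_, rfl⟩
    rw [← hZ] at h12 ⊢
    have hZ0 : 0 ≤ Z := by rw [hZ]; exact Wt_nonneg (fun l _ => by positivity) fun n => fk_nonneg _ _
    have h13 : Real.exp (-(4 * ((k : ℝ) + 1) / w)) * (kap w * fk (k + 1) R) ≤ Z := by
      calc Real.exp (-(4 * ((k : ℝ) + 1) / w)) * (kap w * fk (k + 1) R) ≤
          Real.exp (-(4 * ((k : ℝ) + 1) / w)) * (Real.exp (4 * ((k : ℝ) + 1) / w) * Z) := by gcongr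
        _ = Z := by rw [← mul_assoc, ← Real.exp_add, neg_add_cancel, Real.exp_zero, one_mul]
    have h14 : Real.exp (-(4 * ((k + 1 : ℕ) : ℝ) ^ 2 / w)) ≤
        Real.exp (-(4 * (k : ℝ) ^ 2 / w)) * Real.exp (-(4 * ((k : ℝ) + 1) / w)) := by
      rw [← Real.exp_add]
      apply Real.exp_le_exp.2
      rw [← neg_add, neg_le_neg_iff, ← add_div]
      apply div_le_div_of_nonneg_right _ hw0.le
      push_cast
      have : (0 : ℝ) ≤ k := Nat.cast_nonneg k
      nlinarith
    have hf0 := fk_nonneg (k + 1) R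
    calc Real.exp (-(4 * ((k + 1 : ℕ) : ℝ) ^ 2 / w)) * kap w ^ (k + 1) * fk (k + 1) R
        ≤ (Real.exp (-(4 * (k : ℝ) ^ 2 / w)) * Real.exp (-(4 * ((k : ℝ) + 1) / w))) * kap w ^ (k + 1) * fk (k + 1) R := by
          gcongr
      _ = C * (Real.exp (-(4 * ((k : ℝ) + 1) / w)) * (kap w * fk (k + 1) R)) := by rw [hC]; ring
      _ ≤ C * Z := by gcongr

/-- (L6) the primes dividing `Δ` are dropped -/
theorem Wt_drop {P D : Finset ℕ} {a F : ℕ → ℝ} (hP : ∀ l ∈ P, 1 ≤ l) (ha : ∀ l ∈ P, 0 ≤ a l) (hDP : D ⊆ P)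
    (hF : Anti F) : Wt P a F ≤ (∏ l ∈ D, (1 + a l)) * Wt (P \ D) a F := by
  classical
  have h1 := Wt_add (P := P) (a := fun l => if l ∈ D then 0 else a l) (b := fun l => if l ∈ D then a l else 0) hP
    (fun l hl => by split_ifs; exacts [le_rfl, ha l hl]) (fun l hl => by split_ifs; exacts [ha l hl, le_rfl]) F hF
  have e1 : Wt P a F = Wt P (fun l => (if l ∈ D then 0 else a l) + (if l ∈ D then a l else 0)) F :=
    Wt_congr fun l _ => by split_ifs <;> ring
  rw [e1]
  refine h1.trans (le_of_eq ?_)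
  congr 1
  · rw [← Finset.prod_subset hDP (f := fun l => 1 + (if l ∈ D then a l else 0))]
    · exact Finset.prod_congr rfl fun l hl => by rw [if_pos hl]
    · intro l _ hl
      rw [if_neg hl, add_zero]
  · unfold Wt
    symm
    have hsub : (P \ D).powerset ⊆ P.powerset := Finset.powerset_mono.2 Finset.sdiff_subset
    rw [← Finset.sum_subset hsub]
    · refine Finset.sum_congr rfl fun s hs => ?_
      congr 1
      refine Finset.prod_congr rfl fun l hl => ?_
      have := Finset.mem_powerset.1 hs hl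
      rw [mem_sdiff] at this
      show a l = if l ∈ D then 0 else a l
      rw [if_neg this.2]
    · intro s hs hs2
      rw [Finset.mem_powerset] at hs hs2
      obtain ⟨l, hl1, hl2⟩ := Finset.not_subset.1 hs2
      rw [mem_sdiff, not_and, not_not] at hl2
      have h3 : (fun l => if l ∈ D then (0 : ℝ) else a l) l = 0 := by
        show (if l ∈ D then (0 : ℝ) else a l) = 0
        rw [if_pos (hl2 (hs hl1))]
      rw [Finset.prod_eq_zero hl1 h3, zero_mul]

end Pool.Agent.U26Z.MX
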