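import Pool.Agent.U26Z.MX.Mom

set_option autoImplicit false

/-!
# The maximal function of the density of the primes in short intervals
-/

namespace Pool.Agent.U26Z.MX

open Finset Filter Topology

open Classical in
/-- the maximal inequality -/
theorem maxi (g : ℕ → ℝ) (hg : ∀ n, 0 ≤ g n) {lam : ℝ} (B : ℕ) : ∀ d A : ℕ, A + d = B →
    lam * (((Ico A B).filter (fun a => ∃ L, 1 ≤ L ∧ a + L ≤ B ∧ lam * L ≤ ∑ m ∈ Ico a (a + L), g m)).card : ℝ) ≤
      ∑ m ∈ Ico A B, g m := by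
  intro d
  induction d using Nat.strong_induction_on with
  | _ d ih =>
    intro A hA
    rcases Nat.eq_zero_or_pos d with h0 | h0
    · have : Ico A B = ∅ := Finset.Ico_eq_empty (by omega)
      rw [this, Finset.filter_empty, Finset.card_empty, Finset.sum_empty, Nat.cast_zero, mul_zero]
    · by_cases hbad : ∃ L, 1 ≤ L ∧ A + L ≤ B ∧ lam * L ≤ ∑ m ∈ Ico A (A + L), g m
      · obtain ⟨L, hL1, hL2, hL3⟩ := hbad
        have h1 := ih (d - L) (by omega) (A + L) (by omega)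
        have h2 : ((Ico A B).filter (fun a => ∃ L, 1 ≤ L ∧ a + L ≤ B ∧ lam * L ≤ ∑ m ∈ Ico a (a + L), g m)).card ≤
            L + ((Ico (A + L) B).filter (fun a => ∃ L, 1 ≤ L ∧ a + L ≤ B ∧ lam * L ≤ ∑ m ∈ Ico a (a + L), g m)).card := by
          have h3 : (Ico A B).filter (fun a => ∃ L, 1 ≤ L ∧ a + L ≤ B ∧ lam * L ≤ ∑ m ∈ Ico a (a + L), g m) ⊆
              Ico A (A + L) ∪ (Ico (A + L) B).filter
                (fun a => ∃ L, 1 ≤ L ∧ a + L ≤ B ∧ lam * L ≤ ∑ m ∈ Ico a (a + L), g m) := by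
            intro a ha
            rw [mem_filter, mem_Ico] at ha
            rw [mem_union, mem_filter, mem_Ico, mem_Ico]
            by_cases h4 : a < A + L
            · left; exact ⟨ha.1.1, h4⟩
            · right; exact ⟨⟨by omega, ha.1.2⟩, ha.2⟩
          refine (Finset.card_le_card h3).trans ((Finset.card_union_le _ _).trans ?_)
          rw [Nat.card_Ico, Nat.add_sub_cancel_left]
        have h3 : ∑ m ∈ Ico A B, g m = ∑ m ∈ Ico A (A + L), g m + ∑ m ∈ Ico (A + L) B, g m :=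
          (Finset.sum_Ico_consecutive g (by omega) (by omega)).symm
        rcases le_total 0 lam with hlam | hlam
        · rw [h3]
          calc lam * (((Ico A B).filter
                (fun a => ∃ L, 1 ≤ L ∧ a + L ≤ B ∧ lam * L ≤ ∑ m ∈ Ico a (a + L), g m)).card : ℝ)
              ≤ lam * ((L + ((Ico (A + L) B).filter
                (fun a => ∃ L, 1 ≤ L ∧ a + L ≤ B ∧ lam * L ≤ ∑ m ∈ Ico a (a + L), g m)).card : ℕ) : ℝ) := by
                apply mul_le_mul_of_nonneg_left _ hlam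
                exact_mod_cast h2
            _ = lam * L + lam * (((Ico (A + L) B).filter
                (fun a => ∃ L, 1 ≤ L ∧ a + L ≤ B ∧ lam * L ≤ ∑ m ∈ Ico a (a + L), g m)).card : ℝ) := by
                push_cast; ring
            _ ≤ _ := by linarith
        · exact (mul_nonpos_of_nonpos_of_nonneg hlam (Nat.cast_nonneg _)).trans
            (Finset.sum_nonneg fun m _ => hg m)
      · have h1 := ih (d - 1) (by omega) (A + 1) (by omega)
        have h2 : (Ico A B).filter (fun a => ∃ L, 1 ≤ L ∧ a + L ≤ B ∧ lam * L ≤ ∑ m ∈ Ico a (a + L), g m) =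
            (Ico (A + 1) B).filter (fun a => ∃ L, 1 ≤ L ∧ a + L ≤ B ∧ lam * L ≤ ∑ m ∈ Ico a (a + L), g m) := by
          ext a
          rw [mem_filter, mem_filter, mem_Ico, mem_Ico]
          constructor
          · rintro ⟨⟨h3, h4⟩, h5⟩
            refine ⟨⟨?_, h4⟩, h5⟩
            rcases Nat.eq_or_lt_of_le h3 with h6 | h6
            · exact absurd (h6 ▸ h5) hbad
            · exact h6
          · rintro ⟨⟨h3, h4⟩, h5⟩
            exact ⟨⟨by omega, h4⟩, h5⟩
        rw [h2]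
        refine h1.trans ?_
        apply Finset.sum_le_sum_of_subset_of_nonneg (Finset.Ico_subset_Ico_left (by omega))
        intro m _ _
        exact hg m

/-- every prime of the window is counted `H₀` times -/
theorem window (n H H₀ : ℕ) (h : H₀ ≤ n + 1) (h1 : 1 ≤ H₀) :
    H₀ * pc n H ≤ ∑ m ∈ Ico (n + 1 - H₀) (n + 1 - H₀ + (H + H₀ - 1)), pc m H₀ := by
  classical
  have e1 : ∑ m ∈ Ico (n + 1 - H₀) (n + 1 - H₀ + (H + H₀ - 1)), pc m H₀ =
      ∑ m ∈ Ico (n + 1 - H₀) (n + 1 - H₀ + (H + H₀ - 1)), ∑ p ∈ (Ioc 0 (n + H + H₀)).filter Nat.Prime,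
        if m < p ∧ p ≤ m + H₀ then 1 else 0 := by
    refine Finset.sum_congr rfl fun m hm => ?_
    rw [mem_Ico] at hm
    unfold pc
    rw [← Finset.sum_filter, Finset.filter_filter, Finset.card_eq_sum_ones]
    apply Finset.sum_congr _ fun _ _ => rfl
    ext p
    rw [mem_filter, mem_filter, mem_Ioc, mem_Ioc]
    constructor
    · rintro ⟨⟨h2, h3⟩, h4⟩
      exact ⟨⟨by omega, by omega⟩, h4, h2, h3⟩
    · rintro ⟨_, h4, h2, h3⟩
      exact ⟨⟨h2, h3⟩, h4⟩
  rw [e1, Finset.sum_comm]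
  have hsub : (Ioc n (n + H)).filter Nat.Prime ⊆ (Ioc 0 (n + H + H₀)).filter Nat.Prime := by
    intro p hp
    rw [mem_filter, mem_Ioc] at hp ⊢
    exact ⟨⟨by omega, by omega⟩, hp.2⟩
  calc H₀ * pc n H = ∑ p ∈ (Ioc n (n + H)).filter Nat.Prime, H₀ := by
        rw [Finset.sum_const, smul_eq_mul, mul_comm]; rfl
    _ ≤ ∑ p ∈ (Ioc n (n + H)).filter Nat.Prime,
        ∑ m ∈ Ico (n + 1 - H₀) (n + 1 - H₀ + (H + H₀ - 1)), if m < p ∧ p ≤ m + H₀ then 1 else 0 := by
        refine Finset.sum_le_sum fun p hp => ?_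
        rw [mem_filter, mem_Ioc] at hp
        rw [← Finset.sum_filter, ← Finset.card_eq_sum_ones]
        have h2 : Ico (p - H₀) p ⊆ (Ico (n + 1 - H₀) (n + 1 - H₀ + (H + H₀ - 1))).filter
            (fun m => m < p ∧ p ≤ m + H₀) := by
          intro m hm
          rw [mem_Ico] at hm
          rw [mem_filter, mem_Ico]
          refine ⟨⟨by omega, by omega⟩, hm.2, by omega⟩
        have h3 := Finset.card_le_card h2
        rw [Nat.card_Ico] at h3
        omega
    _ ≤ _ := Finset.sum_le_sum_of_subset hsub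

/-- Jensen -/
theorem jensen (f : ℕ → ℕ) (k a L : ℕ) (hL : 1 ≤ L) {v : ℝ} (hv : (k : ℝ) ≤ v)
    (h : v * L ≤ ((∑ m ∈ Ico a (a + L), f m : ℕ) : ℝ)) :
    (v - k) ^ k * L ≤ ∑ m ∈ Ico a (a + L), (max ((f m : ℝ) - k) 0) ^ k := by
  have hL0 : (0 : ℝ) < L := by exact_mod_cast hL
  have hcard : (Ico a (a + L)).card = L := by rw [Nat.card_Ico, Nat.add_sub_cancel_left]
  have h2 := Real.pow_arith_mean_le_arith_mean_pow (Ico a (a + L)) (fun _ => 1 / (L : ℝ))
    (fun m => max ((f m : ℝ) - k) 0) (fun _ _ => by positivity)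
    (by rw [Finset.sum_const, hcard, nsmul_eq_mul]; field_simp) (fun _ _ => le_max_right _ _) k
  simp only [← Finset.mul_sum] at h2
  have h3 : v - k ≤ 1 / (L : ℝ) * ∑ m ∈ Ico a (a + L), max ((f m : ℝ) - k) 0 := by
    rw [div_mul_eq_mul_div, one_mul, le_div_iff₀ hL0]
    calc (v - k) * L = v * L - L * k := by ring
      _ ≤ ((∑ m ∈ Ico a (a + L), f m : ℕ) : ℝ) - L * k := by linarith
      _ = ∑ m ∈ Ico a (a + L), ((f m : ℝ) - k) := by
          rw [Finset.sum_sub_distrib, Finset.sum_const, hcard, nsmul_eq_mul]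
          push_cast
          ring
      _ ≤ _ := Finset.sum_le_sum fun m _ => le_max_left _ _
  have h4 : (v - k) ^ k ≤ 1 / (L : ℝ) * ∑ m ∈ Ico a (a + L), (max ((f m : ℝ) - k) 0) ^ k :=
    (pow_le_pow_left₀ (by linarith) h3 k).trans h2
  rw [div_mul_eq_mul_div, one_mul, le_div_iff₀ hL0] at h4
  exact h4

theorem max_pow_le (f k : ℕ) : (max ((f : ℝ) - k) 0) ^ k ≤ k.factorial * (f.choose k : ℝ) := by
  rcases Nat.eq_zero_or_pos k with h0 | h0
  · subst h0
    simp
  · rcases le_total f k with h | h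
    · have h1 : (f : ℝ) - k ≤ 0 := by
        have : (f : ℝ) ≤ k := by exact_mod_cast h
        linarith
      rw [max_eq_right h1, zero_pow (by omega)]
      positivity
    · have h1 : (0 : ℝ) ≤ (f : ℝ) - k := by
        have : (k : ℝ) ≤ f := by exact_mod_cast h
        linarith
      rw [max_eq_left h1]
      have h2 := Nat.pow_sub_le_descFactorial f k
      rw [Nat.descFactorial_eq_factorial_mul_choose] at h2
      have h3 : ((f : ℝ) - k) ^ k ≤ (((f + 1 - k) ^ k : ℕ) : ℝ) := by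
        push_cast
        apply pow_le_pow_left₀ h1
        rw [Nat.cast_sub (by omega)]
        push_cast
        linarith
      exact h3.trans (by exact_mod_cast h2)

open Classical in
/-- **the number of bad starting points** -/
theorem bad (k : ℕ) {θ K : ℝ} (hθ : 0 < θ) (hK : 0 < K) : ∃ X₀ : ℕ, ∀ X : ℕ, X₀ ≤ X → ∀ Y : ℕ,
    (X : ℝ) ^ θ ≤ Y → Y ≤ X → ∀ v : ℝ, (k : ℝ) < v →
    (((Ioc X (X + Y)).filter (fun n => ∃ H : ℕ, 1 ≤ H ∧ H ≤ Y ∧
      v * ((H : ℝ) + ⌊K * Real.log X⌋₊) ≤ (⌊K * Real.log X⌋₊ : ℝ) * pc n H)).card : ℝ) ≤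
      101 * k.factorial * (2 * K / θ) ^ k / (v - k) ^ k * Y := by
  obtain ⟨X₁, hmom⟩ := moment k hθ hK
  have tN : Tendsto (fun X : ℕ => (X : ℝ)) atTop atTop := tendsto_natCast_atTop_atTop
  have tL : Tendsto (fun X : ℕ => Real.log (X : ℝ)) atTop atTop := Real.tendsto_log_atTop.comp tN
  have hev1 : ∀ᶠ X : ℕ in atTop, 1 ≤ K * Real.log X := (tL.const_mul_atTop hK).eventually_ge_atTop 1
  have hpos : 0 < (2 * K / θ) ^ k := by positivity
  have hev2 : ∀ᶠ X : ℕ in atTop, (K * Real.log X) ^ (k + 1) ≤ (2 * K / θ) ^ k * (X : ℝ) ^ θ := by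
    have h1 := ((isLittleO_log_rpow_rpow_atTop ((k + 1 : ℕ) : ℝ) hθ).comp_tendsto tN).bound
      (by positivity : (0 : ℝ) < (2 * K / θ) ^ k / K ^ (k + 1))
    filter_upwards [h1, tL.eventually_ge_atTop 1] with X h2 h3
    simp only [Function.comp_def] at h2
    rw [Real.norm_of_nonneg (by positivity), Real.norm_of_nonneg (by positivity), Real.rpow_natCast] at h2
    rw [mul_pow]
    calc K ^ (k + 1) * Real.log X ^ (k + 1) ≤ K ^ (k + 1) * ((2 * K / θ) ^ k / K ^ (k + 1) * (X : ℝ) ^ θ) := by gcongr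
      _ = _ := by field_simp
  have hev3 : ∀ᶠ X : ℕ in atTop, K * Real.log X ≤ X := by
    have h1 := (Real.isLittleO_log_id_atTop.comp_tendsto tN).bound (by positivity : (0 : ℝ) < 1 / K)
    filter_upwards [h1, tL.eventually_ge_atTop 1] with X h2 h3
    simp only [Function.comp_def, id] at h2
    rw [Real.norm_of_nonneg (by linarith), Real.norm_of_nonneg (by positivity)] at h2
    calc K * Real.log X ≤ K * (1 / K * X) := by gcongr
      _ = X := by field_simp
  obtain ⟨X₂, hX₂⟩ := eventually_atTop.1 ((hev1.and hev2).and hev3)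
  refine ⟨max X₁ X₂, fun X hX Y hY1 hY2 v hv => ?_⟩
  obtain ⟨⟨h1, h2⟩, h3⟩ := hX₂ X ((le_max_right _ _).trans hX)
  obtain ⟨H₀, hH₀⟩ : ∃ H₀, H₀ = ⌊K * Real.log X⌋₊ := ⟨_, rfl⟩
  have hmom' := hmom X ((le_max_left _ _).trans hX) (2 * Y) (by
    push_cast
    have : (0 : ℝ) ≤ Y := Nat.cast_nonneg Y
    linarith) (by omega)
  rw [← hH₀] at hmom' ⊢
  have hH1 : 1 ≤ H₀ := by rw [hH₀]; exact Nat.le_floor (by exact_mod_cast h1)
  have hHK : (H₀ : ℝ) ≤ K * Real.log X := by rw [hH₀]; exact Nat.floor_le (by linarith)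
  have hHX : H₀ ≤ X := by
    have : (H₀ : ℝ) ≤ X := hHK.trans h3
    exact_mod_cast this
  obtain ⟨g, hg⟩ : ∃ g : ℕ → ℝ, g = fun m => (max ((pc m H₀ : ℝ) - k) 0) ^ k := ⟨_, rfl⟩
  have hg0 : ∀ m, 0 ≤ g m := fun m => by rw [hg]; positivity
  obtain ⟨S, hS⟩ : ∃ S, S = (Ioc X (X + Y)).filter (fun n => ∃ H : ℕ, 1 ≤ H ∧ H ≤ Y ∧
      v * ((H : ℝ) + H₀) ≤ (H₀ : ℝ) * pc n H) := ⟨_, rfl⟩
  rw [← hS]
  have hvk : 0 < (v - k) ^ k := by
    apply pow_pos
    linarith
  have hv0 : 0 < v := lt_of_le_of_lt (Nat.cast_nonneg k) hv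
  -- the image of the bad set
  have h4 : S.card ≤ ((Ico (X + 2 - H₀) (X + 1 + 2 * Y)).filter (fun a => ∃ L, 1 ≤ L ∧ a + L ≤ X + 1 + 2 * Y ∧
      (v - k) ^ k * L ≤ ∑ m ∈ Ico a (a + L), g m)).card := by
    apply Finset.card_le_card_of_injOn (fun n => n + 1 - H₀)
    · intro n hn
      rw [mem_coe, hS, mem_filter, mem_Ioc] at hn
      obtain ⟨⟨h5, h6⟩, H, hH, hHY, h7⟩ := hn
      rw [mem_coe, mem_filter, mem_Ico]
      refine ⟨⟨?_, ?_⟩, H + H₀ - 1, ?_, ?_, ?_⟩
      · show X + 2 - H₀ ≤ n + 1 - H₀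
        omega
      · show n + 1 - H₀ < X + 1 + 2 * Y
        omega
      · omega
      · show n + 1 - H₀ + (H + H₀ - 1) ≤ X + 1 + 2 * Y
        omega
      · show (v - k) ^ k * ((H + H₀ - 1 : ℕ) : ℝ) ≤ ∑ m ∈ Ico (n + 1 - H₀) (n + 1 - H₀ + (H + H₀ - 1)), g m
        rw [hg]
        apply jensen (fun m => pc m H₀) k _ _ (by omega) hv.le
        have h8 := window n H H₀ (by omega) hH1
        have h9 : ((H + H₀ - 1 : ℕ) : ℝ) ≤ (H : ℝ) + H₀ := by
          have : H + H₀ - 1 ≤ H + H₀ := Nat.sub_le _ _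
          exact_mod_cast this
        calc v * ((H + H₀ - 1 : ℕ) : ℝ) ≤ v * ((H : ℝ) + H₀) := by gcongr
          _ ≤ (H₀ : ℝ) * pc n H := h7
          _ ≤ _ := by exact_mod_cast h8
    · intro n hn n' hn' h
      rw [mem_coe, hS, mem_filter, mem_Ioc] at hn hn'
      simp only at h
      omega
  have h5 := maxi g hg0 (lam := (v - k) ^ k) (X + 1 + 2 * Y) (X + 1 + 2 * Y - (X + 2 - H₀)) (X + 2 - H₀) (by omega)
  -- the sum of `g`
  have h6 : ∑ m ∈ Ico (X + 2 - H₀) (X + 1 + 2 * Y), g m ≤ 101 * k.factorial * (2 * K / θ) ^ k * Y := by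
    have hgle : ∀ m, g m ≤ k.factorial * ((pc m H₀).choose k : ℝ) := fun m => by
      rw [hg]
      exact max_pow_le _ _
    have h7 : ∑ m ∈ Ico (X + 2 - H₀) (X + 1 + 2 * Y), g m ≤
        ∑ m ∈ Ioc (X - H₀) X, g m + ∑ m ∈ Ioc X (X + 2 * Y), g m := by
      rw [← Finset.sum_union]
      · apply Finset.sum_le_sum_of_subset_of_nonneg
        · intro m hm
          rw [mem_Ico] at hm
          rw [mem_union, mem_Ioc, mem_Ioc]
          omega
        · intro m _ _
          exact hg0 m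
      · rw [Finset.disjoint_left]
        intro m hm hm2
        rw [mem_Ioc] at hm hm2
        omega
    have h8 : ∑ m ∈ Ioc X (X + 2 * Y), g m ≤ k.factorial * (50 * (2 * K / θ) ^ k * (2 * Y)) := by
      calc ∑ m ∈ Ioc X (X + 2 * Y), g m ≤ ∑ m ∈ Ioc X (X + 2 * Y), k.factorial * ((pc m H₀).choose k : ℝ) :=
            Finset.sum_le_sum fun m _ => hgle m
        _ = k.factorial * ∑ m ∈ Ioc X (X + 2 * Y), ((pc m H₀).choose k : ℝ) := by rw [Finset.mul_sum]
        _ ≤ _ := by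
            apply mul_le_mul_of_nonneg_left _ (by positivity)
            push_cast at hmom'
            exact hmom'
    have h9 : ∑ m ∈ Ioc (X - H₀) X, g m ≤ k.factorial * ((2 * K / θ) ^ k * Y) := by
      have h10 : ∀ m, g m ≤ (H₀ : ℝ) ^ k := by
        intro m
        rw [hg]
        apply pow_le_pow_left₀ (le_max_right _ _)
        apply max_le
        · have : (pc m H₀ : ℝ) ≤ H₀ := by
            unfold pc
            have := Finset.card_filter_le (Ioc m (m + H₀)) Nat.Prime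
            rw [Nat.card_Ioc, Nat.add_sub_cancel_left] at this
            exact_mod_cast this
          have h11 : (0 : ℝ) ≤ k := Nat.cast_nonneg k
          linarith
        · positivity
      have hf1 : (1 : ℝ) ≤ k.factorial := by exact_mod_cast Nat.factorial_pos k
      calc ∑ m ∈ Ioc (X - H₀) X, g m ≤ ∑ _m ∈ Ioc (X - H₀) X, (H₀ : ℝ) ^ k := Finset.sum_le_sum fun m _ => h10 m
        _ = (H₀ : ℝ) ^ (k + 1) := by
            rw [Finset.sum_const, Nat.card_Ioc, nsmul_eq_mul, show X - (X - H₀) = H₀ by omega]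
            ring
        _ ≤ (K * Real.log X) ^ (k + 1) := by gcongr
        _ ≤ (2 * K / θ) ^ k * (X : ℝ) ^ θ := h2
        _ ≤ (2 * K / θ) ^ k * Y := by gcongr
        _ ≤ _ := by
            have : 0 ≤ (2 * K / θ) ^ k * (Y : ℝ) := by positivity
            nlinarith
    linarith
  rw [div_mul_eq_mul_div, le_div_iff₀ hvk]
  calc (S.card : ℝ) * (v - k) ^ k = (v - k) ^ k * S.card := by ring
    _ ≤ (v - k) ^ k * (((Ico (X + 2 - H₀) (X + 1 + 2 * Y)).filter (fun a => ∃ L, 1 ≤ L ∧ a + L ≤ X + 1 + 2 * Y ∧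
      (v - k) ^ k * L ≤ ∑ m ∈ Ico a (a + L), g m)).card : ℝ) := by
        apply mul_le_mul_of_nonneg_left _ hvk.le
        exact_mod_cast h4
    _ ≤ _ := h5.trans h6

end Pool.Agent.U26Z.MX
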