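import Pool.Agent.U26Z.MX.Tup

set_option autoImplicit false

/-!
# The binomial moments of the number of primes in short intervals, for all large `X`
-/

namespace Pool.Agent.U26Z.MX

open Finset Filter Topology

/-- **binomial moments** in every interval `(X, X + Y]`, `Y ≥ X ^ θ` -/
theorem moment (k : ℕ) {θ K : ℝ} (hθ : 0 < θ) (hK : 0 < K) : ∃ X₀ : ℕ, ∀ X : ℕ, X₀ ≤ X → ∀ Y : ℕ,
    (X : ℝ) ^ θ ≤ Y → Y ≤ 4 * X →
    ∑ n ∈ Ioc X (X + Y), ((pc n ⌊K * Real.log X⌋₊).choose k : ℝ) ≤ 50 * (2 * K / θ) ^ k * Y := by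
  obtain ⟨w, hw3, hkw, hw⟩ := exists_w k
  obtain ⟨W, hW⟩ : ∃ W, W = Wp w := ⟨_, rfl⟩
  have hW1 : 1 ≤ W := by rw [hW]; exact Wp_pos w
  have hW0 : (0 : ℝ) < W := by exact_mod_cast hW1
  obtain ⟨κ, hκ⟩ : ∃ κ, κ = kap w := ⟨_, rfl⟩
  have hκ0 : 0 < κ := by rw [hκ]; exact kap_pos w
  obtain ⟨c1, hc1⟩ : ∃ c1 : ℝ, c1 = Real.log W / 2 + Real.log 2 := ⟨_, rfl⟩
  have tN : Tendsto (fun X : ℕ => (X : ℝ)) atTop atTop := tendsto_natCast_atTop_atTop
  have tL : Tendsto (fun X : ℕ => Real.log (X : ℝ)) atTop atTop := Real.tendsto_log_atTop.comp tN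
  have tp : ∀ a : ℝ, 0 < a → Tendsto (fun X : ℕ => (X : ℝ) ^ a) atTop atTop := fun a ha =>
    (tendsto_rpow_atTop ha).comp tN
  -- the ratio
  have hlim : Tendsto (fun X : ℕ => ((K * Real.log X + W / κ) / (θ / 2 * Real.log X - c1)) ^ k) atTop
      (𝓝 ((2 * K / θ) ^ k)) := by
    have h1 : Tendsto (fun L : ℝ => (K * L + W / κ) / (θ / 2 * L - c1)) atTop (𝓝 (2 * K / θ)) := by
      have e : ∀ᶠ L : ℝ in atTop, (K + W / κ * L⁻¹) / (θ / 2 - c1 * L⁻¹) = (K * L + W / κ) / (θ / 2 * L - c1) := by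
        filter_upwards [eventually_gt_atTop (0 : ℝ)] with L hL
        have e1 : K * L + W / κ = (K + W / κ * L⁻¹) * L := by field_simp
        have e2 : θ / 2 * L - c1 = (θ / 2 - c1 * L⁻¹) * L := by field_simp
        rw [e1, e2, mul_div_mul_right _ _ hL.ne']
      refine Tendsto.congr' e ?_
      have h2 : Tendsto (fun L : ℝ => K + W / κ * L⁻¹) atTop (𝓝 (K + W / κ * 0)) :=
        (tendsto_inv_atTop_zero.const_mul _).const_add _
      have h3 : Tendsto (fun L : ℝ => θ / 2 - c1 * L⁻¹) atTop (𝓝 (θ / 2 - c1 * 0)) :=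
        (tendsto_inv_atTop_zero.const_mul _).const_sub _
      have h4 := h2.div h3 (by rw [mul_zero, sub_zero]; positivity)
      have e3 : (K + W / κ * 0) / (θ / 2 - c1 * 0) = 2 * K / θ := by
        rw [mul_zero, mul_zero, add_zero, sub_zero]
        field_simp
      rw [e3] at h4
      exact h4
    exact (h1.comp tL).pow k
  have hpos : 0 < (2 * K / θ) ^ k := by positivity
  have hev1 : ∀ᶠ X : ℕ in atTop, ((K * Real.log X + W / κ) / (θ / 2 * Real.log X - c1)) ^ k < 2 * (2 * K / θ) ^ k :=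
    hlim.eventually_lt_const (by linarith)
  have hev2 : ∀ᶠ X : ℕ in atTop, 1 ≤ K * Real.log X := (tL.const_mul_atTop hK).eventually_ge_atTop 1
  have hev3 : ∀ᶠ X : ℕ in atTop, (c1 + 1) / (θ / 2) ≤ Real.log X := tL.eventually_ge_atTop _
  have hev4 : ∀ᶠ X : ℕ in atTop, 48 * (W : ℝ) ≤ (X : ℝ) ^ θ := (tp θ hθ).eventually_ge_atTop _
  have hev5 : ∀ᶠ X : ℕ in atTop, 4 * W * (K * Real.log X + 4) ^ 2 ≤ (X : ℝ) ^ θ := by
    have h1 := ((isLittleO_log_rpow_rpow_atTop (2 : ℝ) hθ).comp_tendsto tN).bound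
      (by positivity : (0 : ℝ) < 1 / (4 * W * (K + 4) ^ 2))
    filter_upwards [h1, tL.eventually_ge_atTop 1] with X h2 h3
    simp only [Function.comp_def] at h2
    rw [Real.norm_of_nonneg (by positivity), Real.norm_of_nonneg (by positivity),
      show (2 : ℝ) = ((2 : ℕ) : ℝ) by norm_num, Real.rpow_natCast] at h2
    calc 4 * (W : ℝ) * (K * Real.log X + 4) ^ 2 ≤ 4 * W * ((K + 4) * Real.log X) ^ 2 := by
          gcongr
          nlinarith
      _ = 4 * W * (K + 4) ^ 2 * Real.log X ^ 2 := by ring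
      _ ≤ 4 * W * (K + 4) ^ 2 * (1 / (4 * W * (K + 4) ^ 2) * (X : ℝ) ^ θ) := by
          push_cast at h2 ⊢
          gcongr
      _ = (X : ℝ) ^ θ := by field_simp
  obtain ⟨X₁, hX₁⟩ := eventually_atTop.1 ((hev1.and hev2).and ((hev3.and hev4).and hev5))
  refine ⟨max X₁ (100 + 4 * W + w), fun X hX Y hY1 hY2 => ?_⟩
  obtain ⟨⟨h1, h2⟩, ⟨h3, h4⟩, h5⟩ := hX₁ X ((le_max_left _ _).trans hX)
  have hXb : 100 + 4 * W + w ≤ X := (le_max_right _ _).trans hX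
  have hX0 : (0 : ℝ) < X := by exact_mod_cast (by omega : 0 < X)
  obtain ⟨L, hL⟩ : ∃ L, L = Real.log (X : ℝ) := ⟨_, rfl⟩
  rw [← hL] at h1 h2 h3 h5 ⊢
  obtain ⟨H, hH⟩ : ∃ H, H = ⌊K * L⌋₊ := ⟨_, rfl⟩
  rw [← hH]
  obtain ⟨M, hM⟩ : ∃ M, M = Y / W + 2 := ⟨_, rfl⟩
  obtain ⟨Q, hQ⟩ : ∃ Q, Q = Nat.sqrt M := ⟨_, rfl⟩
  have hH1 : 1 ≤ H := by rw [hH]; exact Nat.le_floor (by exact_mod_cast h2)
  have hHK : (H : ℝ) ≤ K * L := by rw [hH]; exact Nat.floor_le (by linarith)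
  have hQM : Q ^ 2 ≤ M := by rw [hQ]; exact Nat.sqrt_le' M
  have hQM2 : M < (Q + 1) ^ 2 := by rw [hQ]; exact Nat.lt_succ_sqrt' M
  -- `M`
  have hYW : (Y : ℝ) / W < (Y / W : ℕ) + 1 := by
    rw [div_lt_iff₀ hW0]
    have := Nat.lt_div_mul_add (show 0 < W from hW1) (a := Y)
    have h6 : Y < (Y / W + 1) * W := by
      rw [add_mul, one_mul]
      exact this
    exact_mod_cast h6
  have hMr : (X : ℝ) ^ θ / W ≤ M := by
    have : (X : ℝ) ^ θ / W ≤ Y / W := by gcongr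
    rw [hM]
    push_cast
    linarith
  have hQr : (X : ℝ) ^ θ / W ≤ ((Q : ℝ) + 1) ^ 2 := by
    have : (M : ℝ) ≤ ((Q : ℝ) + 1) ^ 2 := by exact_mod_cast hQM2.le
    linarith
  -- `Q` is large
  have hQ2 : 2 * (K * L + 4) ≤ (Q : ℝ) + 1 := by
    have h6 : (2 * (K * L + 4)) ^ 2 ≤ ((Q : ℝ) + 1) ^ 2 := by
      refine le_trans ?_ hQr
      rw [le_div_iff₀ hW0]
      calc (2 * (K * L + 4)) ^ 2 * W = 4 * W * (K * L + 4) ^ 2 := by ring
        _ ≤ _ := h5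
    exact le_of_sq_le_sq h6 (by positivity)
  have hQ3 : 3 ≤ Q := by
    have : (3 : ℝ) ≤ Q := by linarith
    exact_mod_cast this
  have hHQ : H ≤ Q := by
    have : (H : ℝ) ≤ Q := by linarith
    exact_mod_cast this
  have hQX : Q + 2 * W ≤ X := by
    have h6 : M ≤ 4 * X + 2 := by
      rw [hM]
      have : Y / W ≤ Y := Nat.div_le_self _ _
      omega
    have h7 : Q * Q ≤ 4 * X + 2 := by
      have := hQM.trans h6
      rwa [sq] at this
    have h8 : 2 * Q ≤ X := by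
      by_contra hcon
      push Not at hcon
      have h9 : X * X < (2 * Q) * (2 * Q) := Nat.mul_self_lt_mul_self hcon
      have h10 : X * X < 4 * (4 * X + 2) := by
        calc X * X < (2 * Q) * (2 * Q) := h9
          _ = 4 * (Q * Q) := by ring
          _ ≤ _ := by omega
      have h11 : 100 * X ≤ X * X := Nat.mul_le_mul_right X (by omega)
      omega
    omega
  have hb := binom_det k w H X Y Q (by omega) hkw hH1 hQ3 (by rw [← hW, ← hM]; exact hQM) hHQ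
    (by rw [← hW]; exact hQX) (by omega)
  rw [← hW, ← hκ, ← hM] at hb
  refine hb.trans ?_
  -- `log Q`
  have hQpos : (0 : ℝ) < Q := by exact_mod_cast (by omega : 0 < Q)
  have hlogQ : θ / 2 * L - c1 ≤ Real.log Q := by
    have h6 : (X : ℝ) ^ θ / W ≤ (2 * (Q : ℝ)) ^ 2 := by
      refine hQr.trans ?_
      have : (1 : ℝ) ≤ Q := by exact_mod_cast (by omega : 1 ≤ Q)
      gcongr
      linarith
    have h7 := Real.log_le_log (by positivity) h6
    rw [Real.log_div (by positivity) hW0.ne', Real.log_rpow hX0, Real.log_pow,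
      Real.log_mul (by norm_num) hQpos.ne', ← hL] at h7
    push_cast at h7
    rw [hc1]
    linarith
  have hden : 1 ≤ θ / 2 * L - c1 := by
    rw [div_le_iff₀ (by positivity)] at h3
    linarith
  obtain ⟨ℓ, hℓ⟩ : ∃ ℓ, ℓ = Real.log (Q : ℝ) := ⟨_, rfl⟩
  have hℓ0 : 0 < ℓ := by rw [hℓ]; linarith
  obtain ⟨δ, hδ⟩ : ∃ δ : ℝ, δ = Real.exp ((2 * k ^ 3 : ℕ) / w) - 1 := ⟨_, rfl⟩
  have hδ0 : 0 ≤ δ := by
    rw [hδ]
    have := Real.one_le_exp (show (0 : ℝ) ≤ ((2 * k ^ 3 : ℕ) : ℝ) / w by positivity)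
    linarith
  obtain ⟨E, hE⟩ : ∃ E, E = Real.exp (4 * (k : ℝ) ^ 2 / w) := ⟨_, rfl⟩
  have hE0 : 0 < E := by rw [hE]; exact Real.exp_pos _
  rw [← hE, ← hκ, ← hδ] at hw
  rw [← hδ]
  have hf0 : (0 : ℝ) < k.factorial := by exact_mod_cast Nat.factorial_pos k
  have hH0 : (0 : ℝ) ≤ H := Nat.cast_nonneg H
  -- the main factor
  have hmain : Bk k w Q * ((κ * H + W) ^ k / k.factorial + (H : ℝ) ^ k * δ) ≤ 2 * (2 * (2 * K / θ) ^ k) := by
    unfold Bk
    rw [← hE, ← hκ, ← hℓ]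
    have e1 : E * k.factorial / (κ ^ k * ℓ ^ k) * ((κ * H + W) ^ k / k.factorial + (H : ℝ) ^ k * δ) =
        E * (((H + W / κ) / ℓ) ^ k + k.factorial * (κ⁻¹) ^ k * δ * (H / ℓ) ^ k) := by
      have e2 : κ * H + W = κ * (H + W / κ) := by field_simp
      rw [e2, mul_pow, div_pow, div_pow, inv_pow]
      have : κ ^ k ≠ 0 := (pow_pos hκ0 k).ne'
      have : ℓ ^ k ≠ 0 := (pow_pos hℓ0 k).ne'
      field_simp
    rw [e1]
    have h6 : ((H : ℝ) / ℓ) ^ k ≤ ((H + W / κ) / ℓ) ^ k := by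
      have : 0 ≤ W / κ := by positivity
      gcongr
      linarith
    have h7 : ((H + W / κ) / ℓ) ^ k ≤ 2 * (2 * K / θ) ^ k := by
      refine le_trans ?_ h1.le
      have : 0 ≤ W / κ := by positivity
      apply pow_le_pow_left₀ (by positivity)
      rw [← hℓ] at hlogQ
      apply div_le_div₀ (by linarith) (by linarith) (by linarith) hlogQ
    have h8 : 0 ≤ ((H + W / κ) / ℓ) ^ k := by positivity
    calc E * (((H + W / κ) / ℓ) ^ k + k.factorial * (κ⁻¹) ^ k * δ * (H / ℓ) ^ k)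
        ≤ E * (((H + W / κ) / ℓ) ^ k + k.factorial * (κ⁻¹) ^ k * δ * ((H + W / κ) / ℓ) ^ k) := by gcongr
      _ = (E * (1 + k.factorial * (κ⁻¹) ^ k * δ)) * ((H + W / κ) / ℓ) ^ k := by ring
      _ ≤ 2 * (2 * (2 * K / θ) ^ k) := by
          have h9 : 0 ≤ E * (1 + k.factorial * (κ⁻¹) ^ k * δ) := by positivity
          exact mul_le_mul hw h7 h8 (by norm_num)
  have hMW : (W : ℝ) * M ≤ 25 / 24 * Y := by
    have h6 : ((Y / W : ℕ) : ℝ) ≤ Y / W := Nat.cast_div_le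
    have h7 : (M : ℝ) ≤ Y / W + 2 := by
      rw [hM]
      push_cast
      linarith
    calc (W : ℝ) * M ≤ W * (Y / W + 2) := by gcongr
      _ = Y + 2 * W := by field_simp
      _ ≤ _ := by linarith
  have hY0 : (0 : ℝ) ≤ Y := Nat.cast_nonneg Y
  have hnn : 0 ≤ Bk k w Q * ((κ * H + W) ^ k / k.factorial + (H : ℝ) ^ k * δ) := by
    have := Bk_nonneg k w Q
    positivity
  calc (W : ℝ) * (12 * (M : ℝ) * Bk k w Q * ((κ * H + W) ^ k / k.factorial + (H : ℝ) ^ k * δ))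
      = 12 * (W * M) * (Bk k w Q * ((κ * H + W) ^ k / k.factorial + (H : ℝ) ^ k * δ)) := by ring
    _ ≤ 12 * (25 / 24 * Y) * (2 * (2 * (2 * K / θ) ^ k)) := by gcongr
    _ = 50 * (2 * K / θ) ^ k * Y := by ring

end Pool.Agent.U26Z.MX
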