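import Pool.Agent.U26Z.MX.Gs
import Pool.Agent.H174R3.D6.TaskLS

set_option autoImplicit false

/-!
# The large sieve bound for the number of prime patterns in a residue class
-/

namespace Pool.Agent.U26Z.MX

open Finset

/-- large sieve bound (from `Pool.Agent.N136.OW.sieve`) -/
lemma sieve (N Q : ℕ) (P : Finset ℕ) (I : ℕ → Finset ℕ) (A : Finset ℕ)
    (hP : ∀ q ∈ P, q.Prime) (hI : ∀ q ∈ P, I q ⊆ range q) (hQ1 : 1 ≤ Q) (hQ : Q ^ 2 ≤ N)
    (hA : A ⊆ Icc 1 N) (hA2 : ∀ n ∈ A, ∀ q ∈ P, n % q ∉ I q) :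
    (A.card : ℝ) * ∑ s ∈ P.powerset.filter (fun s => ∏ l ∈ s, l ≤ Q), ∏ l ∈ s, ((I l).card : ℝ) / l
      ≤ 12 * N := by
  set S := P.powerset.filter (fun s => ∏ l ∈ s, l ≤ Q) with hS
  set G := ∑ s ∈ S, ∏ l ∈ s, ((I l).card : ℝ) / l with hG
  have h1 := Pool.Agent.H174R3.D6LS.taskLS N Q P I S (fun s => (-1) ^ s.card) hP hI (by
    intro s hs
    rw [hS, Finset.mem_filter, Finset.mem_powerset] at hs
    exact hs)
  have h2 : ∑ s ∈ S, ((-1 : ℝ) ^ s.card) ^ 2 * ∏ q ∈ s, ((I q).card : ℝ) / q = G := by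
    rw [hG]
    apply Finset.sum_congr rfl
    intro s _
    have h0 : ((-1 : ℝ) ^ s.card) ^ 2 = 1 := by
      rw [← pow_mul, mul_comm s.card 2, pow_mul]; norm_num
    rw [h0, one_mul]
  have h3 : (A.card : ℝ) * G ^ 2 ≤ ∑ n ∈ Icc 1 N, (∑ s ∈ S, (-1 : ℝ) ^ s.card *
      ∏ q ∈ s, ((if n % q ∈ I q then (1 : ℝ) else 0) - ((I q).card : ℝ) / q)) ^ 2 := by
    calc (A.card : ℝ) * G ^ 2 = ∑ n ∈ A, G ^ 2 := by rw [Finset.sum_const, nsmul_eq_mul]
      _ = ∑ n ∈ A, (∑ s ∈ S, (-1 : ℝ) ^ s.card *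
      ∏ q ∈ s, ((if n % q ∈ I q then (1 : ℝ) else 0) - ((I q).card : ℝ) / q)) ^ 2 := by
          apply Finset.sum_congr rfl
          intro n hn
          congr 1
          rw [hG]
          apply Finset.sum_congr rfl
          intro s hs
          rw [hS, Finset.mem_filter, Finset.mem_powerset] at hs
          have h4 : ∏ q ∈ s, ((if n % q ∈ I q then (1 : ℝ) else 0) - ((I q).card : ℝ) / q) =
              ∏ q ∈ s, ((-1) * (((I q).card : ℝ) / q)) := by
            apply Finset.prod_congr rfl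
            intro q hq
            rw [if_neg (hA2 n hn q (hs.1 hq))]
            ring
          rw [h4, Finset.prod_mul_distrib, Finset.prod_const, ← mul_assoc, ← mul_pow]
          simp
      _ ≤ _ := Finset.sum_le_sum_of_subset_of_nonneg hA (fun _ _ _ => sq_nonneg _)
  rw [h2] at h1
  have hG1 : 1 ≤ G := by
    have h5 : (∅ : Finset ℕ) ∈ S := by
      rw [hS, Finset.mem_filter]
      simp [hQ1]
    have h6 := Finset.single_le_sum (f := fun s : Finset ℕ => ∏ l ∈ s, ((I l).card : ℝ) / l)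
      (fun s _ => Finset.prod_nonneg (fun l _ => by positivity)) h5
    simpa [hG] using h6
  have h7 : (Q : ℝ) ^ 2 ≤ N := by exact_mod_cast hQ
  have h8 : (A.card : ℝ) * G ^ 2 ≤ 12 * N * G := by
    refine h3.trans (h1.trans ?_)
    have : 6 * ((N : ℝ) + (Q : ℝ) ^ 2) ≤ 12 * N := by linarith
    exact mul_le_mul_of_nonneg_right this (by linarith)
  have h9 : ((A.card : ℝ) * G) * G ≤ (12 * N) * G := by
    calc ((A.card : ℝ) * G) * G = (A.card : ℝ) * G ^ 2 := by ring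
      _ ≤ _ := h8
  exact le_of_mul_le_mul_right h9 (by linarith)

/-- the collision primes of `T` in `(w, H]` -/
def Dc (w H : ℕ) (T : Finset ℕ) : Finset ℕ :=
  (Pw w H).filter (fun l => ∃ t ∈ T, ∃ t' ∈ T, t < t' ∧ l ∣ t' - t)

/-- the product over the collision primes -/
noncomputable def FT (k w H : ℕ) (T : Finset ℕ) : ℝ := ∏ l ∈ Dc w H T, (1 + (k : ℝ) / l)

/-- the residues excluded modulo `l` -/
def Il (b W : ℕ) (T : Finset ℕ) (l : ℕ) : Finset ℕ := (range l).filter (fun r => ∃ t ∈ T, l ∣ b + W * r + t)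

theorem Il_card {b W l : ℕ} {T : Finset ℕ} (hl : l.Prime) (hW : Nat.Coprime W l)
    (hT : ∀ t ∈ T, ∀ t' ∈ T, t < t' → ¬ l ∣ t' - t) : (Il b W T l).card = T.card := by
  classical
  -- for every `t` there is a unique residue
  have hex : ∀ t : ℕ, ∃ r, r < l ∧ l ∣ b + W * r + t := by
    intro t
    obtain ⟨r, hr⟩ : ∃ r : ℕ, l ∣ b + W * r + t := by
      obtain ⟨c, hc⟩ := Nat.exists_mul_mod_eq_of_coprime (l * (b + t) - (b + t)) hW hl.ne_zero
      refine ⟨c, ?_⟩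
      have h2 : (l * (b + t) - (b + t)) % l = (W * c) % l := hc.2.symm
      have h3 : b + t ≤ l * (b + t) := Nat.le_mul_of_pos_left _ hl.pos
      have h4 : (b + W * c + t) % l = 0 := by
        rw [show b + W * c + t = (b + t) + W * c by ring, Nat.add_mod, ← h2, ← Nat.add_mod,
          Nat.add_sub_cancel' h3, Nat.mul_mod_right]
      exact Nat.dvd_of_mod_eq_zero h4
    refine ⟨r % l, Nat.mod_lt _ hl.pos, ?_⟩
    rw [Nat.dvd_iff_mod_eq_zero] at hr ⊢
    rw [← hr]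
    rw [Nat.add_mod (b + W * (r % l)) t, Nat.add_mod b (W * (r % l)), Nat.mul_mod_mod, ← Nat.add_mod b, ← Nat.add_mod]
  choose g hg1 hg2 using hex
  have himg : Il b W T l = T.image g := by
    ext r
    unfold Il
    rw [mem_filter, mem_range, mem_image]
    constructor
    · rintro ⟨hr, t, ht, hd⟩
      refine ⟨t, ht, ?_⟩
      have h1 := hg2 t
      have h2 : W * g t ≡ W * r [MOD l] := by
        have h3 : (b + W * g t + t) ≡ (b + W * r + t) [MOD l] := by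
          unfold Nat.ModEq
          rw [Nat.dvd_iff_mod_eq_zero] at h1 hd
          rw [h1, hd]
        have h4 := Nat.ModEq.add_right_cancel' t h3
        exact Nat.ModEq.add_left_cancel' b h4
      have h5 := Nat.ModEq.cancel_left_of_coprime (by rwa [Nat.coprime_comm] at hW) h2
      exact Nat.ModEq.eq_of_lt_of_lt h5 (hg1 t) hr
    · rintro ⟨t, ht, rfl⟩
      exact ⟨hg1 t, t, ht, hg2 t⟩
  rw [himg]
  apply Finset.card_image_of_injOn
  have key : ∀ t t' : ℕ, t < t' → g t = g t' → l ∣ t' - t := by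
    intro t t' htt h
    have h1 := hg2 t
    have h2 := hg2 t'
    rw [← h] at h2
    have h3 := Nat.dvd_sub h2 h1
    have e : b + W * g t + t' - (b + W * g t + t) = t' - t := by omega
    rwa [e] at h3
  intro t ht t' ht' h
  by_contra hne
  rcases lt_or_gt_of_ne hne with h1 | h1
  · exact hT t ht t' ht' h1 (key t t' h1 h)
  · exact hT t' ht' t ht h1 (key t' t h1 h.symm)

/-- the bound for one pattern in one residue class -/
theorem pattern (k w H M Q b W : ℕ) (T : Finset ℕ) (hw : 2 ≤ w) (hk : T.card = k) (hTH : T ⊆ Icc 1 H)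
    (hW : ∀ l : ℕ, l.Prime → w < l → Nat.Coprime W l) (hQ1 : 3 ≤ Q) (hQM : Q ^ 2 ≤ M) (hHQ : H ≤ Q)
    (hbQ : Q ≤ b) :
    (((Icc 1 M).filter (fun m => ∀ t ∈ T, (b + W * m + t).Prime)).card : ℝ) ≤
      12 * M * FT k w H T * (Real.exp (4 * (k : ℝ) ^ 2 / w) * k.factorial / (kap w ^ k * Real.log Q ^ k)) := by
  classical
  have hw0 : (0 : ℝ) < w := by exact_mod_cast (by omega : 0 < w)
  obtain ⟨A, hA⟩ : ∃ A, A = (Icc 1 M).filter (fun m => ∀ t ∈ T, (b + W * m + t).Prime) := ⟨_, rfl⟩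
  obtain ⟨D, hD⟩ : ∃ D, D = Dc w H T := ⟨_, rfl⟩
  have hPQ : ∀ l ∈ Pw w Q, l.Prime ∧ w < l ∧ l ≤ Q := by
    intro l hl
    unfold Pw at hl
    rw [mem_filter, mem_Ioc] at hl
    exact ⟨hl.2, hl.1.1, hl.1.2⟩
  have hDQ : D ⊆ Pw w Q := by
    intro l hl
    rw [hD] at hl
    unfold Dc Pw at hl
    rw [mem_filter, mem_filter, mem_Ioc] at hl
    unfold Pw
    rw [mem_filter, mem_Ioc]
    exact ⟨⟨hl.1.1.1, by omega⟩, hl.1.2⟩
  have hnc : ∀ l ∈ Pw w Q \ D, ∀ t ∈ T, ∀ t' ∈ T, t < t' → ¬ l ∣ t' - t := by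
    intro l hl t ht t' ht' htt hd
    rw [mem_sdiff] at hl
    apply hl.2
    rw [hD]
    unfold Dc Pw
    rw [mem_filter, mem_filter, mem_Ioc]
    have h1 := hPQ l hl.1
    have h2 := mem_Icc.1 (hTH ht')
    have h3 := Nat.le_of_dvd (by omega) hd
    exact ⟨⟨⟨h1.2.1, by omega⟩, h1.1⟩, t, ht, t', ht', htt, hd⟩
  have h1 := sieve M Q (Pw w Q \ D) (Il b W T) A (fun q hq => (hPQ q (mem_sdiff.1 hq).1).1)
    (fun q _ => Finset.filter_subset _ _) (by omega) hQM (by rw [hA]; exact Finset.filter_subset _ _)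
    (by
      intro m hm q hq hmem
      rw [hA, mem_filter] at hm
      unfold Il at hmem
      rw [mem_filter] at hmem
      obtain ⟨_, t, ht, hd⟩ := hmem
      have h2 := hm.2 t ht
      have h3 : q ∣ b + W * m + t := by
        rw [Nat.dvd_iff_mod_eq_zero] at hd ⊢
        rw [← hd]
        rw [Nat.add_mod (b + W * (m % q)) t, Nat.add_mod b (W * (m % q)), Nat.mul_mod_mod, ← Nat.add_mod b, ← Nat.add_mod]
      have h4 := hPQ q (mem_sdiff.1 hq).1
      have h5 := (Nat.prime_dvd_prime_iff_eq h4.1 h2).1 h3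
      have h6 := mem_Icc.1 (hTH ht)
      omega)
  have h2 : ∑ s ∈ (Pw w Q \ D).powerset.filter (fun s => ∏ l ∈ s, l ≤ Q), ∏ l ∈ s, ((Il b W T l).card : ℝ) / l =
      Wt (Pw w Q \ D) (fun l => (k : ℝ) / l) (fun n => fk 0 ((Q : ℝ) / n)) := by
    unfold Wt
    rw [Finset.sum_filter]
    refine Finset.sum_congr rfl fun s hs => ?_
    rw [Finset.mem_powerset] at hs
    have hpos : 0 < ∏ l ∈ s, l := Finset.prod_pos fun q hq => (hPQ q (mem_sdiff.1 (hs hq)).1).1.pos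
    have hposr : (0 : ℝ) < ((∏ l ∈ s, l : ℕ) : ℝ) := by exact_mod_cast hpos
    have e1 : ∏ l ∈ s, ((Il b W T l).card : ℝ) / l = ∏ l ∈ s, (k : ℝ) / l := by
      refine Finset.prod_congr rfl fun l hl => ?_
      have h4 := hPQ l (mem_sdiff.1 (hs hl)).1
      rw [Il_card h4.1 (hW l h4.1 h4.2.1) (hnc l (hs hl)), hk]
    show _ = (∏ l ∈ s, (k : ℝ) / l) * fk 0 ((Q : ℝ) / ((∏ l ∈ s, l : ℕ) : ℝ))
    unfold fk
    by_cases hle : ∏ l ∈ s, l ≤ Q
    · rw [if_pos hle, if_pos, e1]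
      · simp
      · rw [le_div_iff₀ hposr, one_mul]
        exact_mod_cast hle
    · rw [if_neg hle, if_neg, mul_zero]
      rw [not_le, div_lt_one hposr]
      exact_mod_cast (not_le.1 hle)
  rw [h2] at h1
  have hanti : Anti (fun n : ℕ => fk 0 ((Q : ℝ) / n)) :=
    anti_of (f := fk 0) (fk_nonneg 0) (fun x y h => fk_mono 0 h) (Nat.cast_nonneg Q)
  have h3 := Wt_drop (P := Pw w Q) (D := D) (a := fun l : ℕ => (k : ℝ) / l) (fun l hl => (hPQ l hl).1.one_lt.le)
    (fun l _ => by positivity) hDQ hanti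
  have h4 := G_lower w Q hw k Q (Nat.cast_nonneg Q) (by linarith)
  have hQr : (1 : ℝ) < Q := by exact_mod_cast (by omega : 1 < Q)
  have hlog : 0 < Real.log Q := Real.log_pos hQr
  have e3 : fk k (Q : ℝ) = Real.log Q ^ k / k.factorial := by
    unfold fk
    rw [if_pos hQr.le]
  rw [e3] at h4
  have hF : ∏ l ∈ D, (1 + (k : ℝ) / l) = FT k w H T := by rw [hD]; rfl
  rw [hF] at h3
  obtain ⟨G, hG⟩ : ∃ G, G = Wt (Pw w Q \ D) (fun l => (k : ℝ) / l) (fun n => fk 0 ((Q : ℝ) / n)) := ⟨_, rfl⟩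
  rw [← hG] at h1 h3
  have hkp := kap_pos w
  have hkf : (0 : ℝ) < k.factorial := by exact_mod_cast Nat.factorial_pos k
  obtain ⟨E, hE⟩ : ∃ E, E = Real.exp (4 * (k : ℝ) ^ 2 / w) := ⟨_, rfl⟩
  have hE0 : 0 < E := by rw [hE]; exact Real.exp_pos _
  have hEinv : Real.exp (-(4 * (k : ℝ) ^ 2 / w)) = E⁻¹ := by rw [hE, Real.exp_neg]
  rw [hEinv] at h4
  have h5 := h4.trans h3
  have hFpos : 0 < FT k w H T := by
    unfold FT
    refine Finset.prod_pos fun l _ => ?_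
    positivity
  -- A * (E⁻¹ κ^k log^k / k!) ≤ A F G ≤ 12 M F
  have hA0 : (0 : ℝ) ≤ A.card := Nat.cast_nonneg _
  have h6 : (A.card : ℝ) * (E⁻¹ * kap w ^ k * (Real.log Q ^ k / k.factorial)) ≤ 12 * M * FT k w H T := by
    calc (A.card : ℝ) * (E⁻¹ * kap w ^ k * (Real.log Q ^ k / k.factorial)) ≤ A.card * (FT k w H T * G) := by gcongr
      _ = FT k w H T * (A.card * G) := by ring
      _ ≤ FT k w H T * (12 * M) := by gcongr
      _ = _ := by ring
  rw [← hA, ← hE]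
  have h7 : (A.card : ℝ) = (A.card * (E⁻¹ * kap w ^ k * (Real.log Q ^ k / k.factorial))) *
      (E * k.factorial / (kap w ^ k * Real.log Q ^ k)) := by
    have : kap w ^ k ≠ 0 := (pow_pos hkp k).ne'
    have : Real.log Q ^ k ≠ 0 := (pow_pos hlog k).ne'
    field_simp
  rw [h7]
  exact mul_le_mul_of_nonneg_right h6 (by positivity)

end Pool.Agent.U26Z.MX
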