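import Pool.Agent.U26Z.MX.Av
import Pool.Agent.Erdos456.Mertens

set_option autoImplicit false

/-!
# The binomial moments of the number of primes in short intervals
-/

namespace Pool.Agent.U26Z.MX

open Finset Filter

/-- the number of primes in `(n, n + H]` -/
def pc (n H : ℕ) : ℕ := ((Ioc n (n + H)).filter Nat.Prime).card

theorem pc_choose (n H k : ℕ) : ((pc n H).choose k : ℝ) =
    ∑ T ∈ powersetCard k (Icc 1 H), if ∀ t ∈ T, (n + t).Prime then (1 : ℝ) else 0 := by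
  classical
  have h1 : pc n H = ((Icc 1 H).filter (fun t => (n + t).Prime)).card := by
    unfold pc
    have : (Ioc n (n + H)).filter Nat.Prime = ((Icc 1 H).filter (fun t => (n + t).Prime)).image (fun t => n + t) := by
      ext p
      simp only [mem_filter, mem_Ioc, mem_image, mem_Icc]
      constructor
      · rintro ⟨⟨h1, h2⟩, h3⟩
        exact ⟨p - n, ⟨⟨by omega, by omega⟩, by rwa [Nat.add_sub_cancel' h1.le]⟩, by omega⟩
      · rintro ⟨t, ⟨⟨h1, h2⟩, h3⟩, rfl⟩
        exact ⟨⟨by omega, by omega⟩, h3⟩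
    rw [this, Finset.card_image_of_injective _ (fun a b h => by simpa using h)]
  rw [h1, ← Finset.card_powersetCard, ← Finset.sum_filter, Finset.sum_const, nsmul_eq_mul, mul_one]
  congr 2
  ext T
  simp only [mem_powersetCard, mem_filter]
  constructor
  · rintro ⟨h2, h3⟩
    exact ⟨⟨fun t ht => (mem_filter.1 (h2 ht)).1, h3⟩, fun t ht => (mem_filter.1 (h2 ht)).2⟩
  · rintro ⟨⟨h2, h3⟩, h4⟩
    exact ⟨fun t ht => mem_filter.2 ⟨h2 ht, h4 t ht⟩, h3⟩

/-- the factor in the sieve bound -/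
noncomputable def Bk (k w Q : ℕ) : ℝ := Real.exp (4 * (k : ℝ) ^ 2 / w) * k.factorial / (kap w ^ k * Real.log Q ^ k)

theorem Bk_nonneg (k w Q : ℕ) : 0 ≤ Bk k w Q := by
  unfold Bk
  have := (kap_pos w).le
  have h2 : 0 ≤ Real.log Q := Real.log_natCast_nonneg Q
  positivity

theorem FT_nonneg (k w H : ℕ) (T : Finset ℕ) : 0 ≤ FT k w H T := by
  unfold FT
  exact Finset.prod_nonneg fun l _ => by positivity

/-- one pattern, one class -/
theorem one_class (k w H X Y Q b : ℕ) (T : Finset ℕ) (hw : 2 ≤ w) (hT : T ∈ powersetCard k (Icc 1 H))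
    (hQ1 : 3 ≤ Q) (hQM : Q ^ 2 ≤ Y / Wp w + 2) (hHQ : H ≤ Q) (hQX : Q + 2 * Wp w ≤ X) :
    (((Ioc X (X + Y)).filter (fun n => n % Wp w = b ∧ ∀ t ∈ T, (n + t).Prime)).card : ℝ) ≤
      12 * ((Y / Wp w + 2 : ℕ) : ℝ) * FT k w H T * Bk k w Q := by
  classical
  rw [mem_powersetCard] at hT
  obtain ⟨W, hW⟩ : ∃ W, W = Wp w := ⟨_, rfl⟩
  rw [← hW] at hQM hQX ⊢
  have hW0 : 0 < W := by rw [hW]; exact Wp_pos w
  rcases Nat.eq_zero_or_pos ((Ioc X (X + Y)).filter (fun n => n % W = b ∧ ∀ t ∈ T, (n + t).Prime)).card with h0 | h0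
  · rw [h0, Nat.cast_zero]
    have h1 := FT_nonneg k w H T
    have h2 := Bk_nonneg k w Q
    positivity
  · have hXW : X < W * (X / W) + W := by
      have := Nat.lt_div_mul_add hW0 (a := X)
      rw [mul_comm]
      exact this
    have hdiv : 2 ≤ X / W := by
      rw [Nat.le_div_iff_mul_le hW0]
      omega
    obtain ⟨b', hb'⟩ : ∃ b', b' = b + W * (X / W - 1) := ⟨_, rfl⟩
    have hb'Q : Q ≤ b' := by
      rw [hb']
      have h3 : W * (X / W - 1) + W = W * (X / W) := by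
        rw [Nat.mul_sub_one, Nat.sub_add_cancel]
        exact Nat.le_mul_of_pos_right W (by omega)
      omega
    have h1 := pattern k w H (Y / W + 2) Q b' W T hw hT.2 hT.1 (fun l hl hwl => by rw [hW]; exact Wp_cop w hl hwl)
      hQ1 hQM hHQ hb'Q
    refine le_trans ?_ h1
    have h2 : ((Ioc X (X + Y)).filter (fun n => n % W = b ∧ ∀ t ∈ T, (n + t).Prime)).card ≤
        ((Icc 1 (Y / W + 2)).filter (fun m => ∀ t ∈ T, (b' + W * m + t).Prime)).card := by
      have key : ∀ n, n ∈ Ioc X (X + Y) → n % W = b → X / W ≤ n / W ∧ n / W ≤ X / W + Y / W + 1 ∧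
          b' + W * (n / W + 1 - X / W) = n := by
        intro n hn hnb
        rw [mem_Ioc] at hn
        have h3 : X / W ≤ n / W := Nat.div_le_div_right hn.1.le
        have h4 : n / W ≤ (X + Y) / W := Nat.div_le_div_right hn.2
        have h5 : (X + Y) / W ≤ X / W + Y / W + 1 := by
          have h6 := Nat.lt_div_mul_add hW0 (a := X)
          have h7 := Nat.lt_div_mul_add hW0 (a := Y)
          have h8 : X + Y < (X / W + Y / W + 2) * W := by
            have : (X / W + Y / W + 2) * W = X / W * W + W + (Y / W * W + W) := by ring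
            omega
          have := (Nat.div_lt_iff_lt_mul hW0).2 h8
          omega
        refine ⟨h3, h4.trans h5, ?_⟩
        rw [hb']
        have h6 : n / W + 1 - X / W + (X / W - 1) = n / W := by omega
        have h7 : b + W * (X / W - 1) + W * (n / W + 1 - X / W) = b + W * (n / W + 1 - X / W + (X / W - 1)) := by ring
        rw [h7, h6, ← hnb, Nat.mod_add_div]
      apply Finset.card_le_card_of_injOn (fun n => n / W + 1 - X / W)
      · intro n hn
        rw [mem_coe, mem_filter] at hn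
        obtain ⟨h3, h4, h5⟩ := key n hn.1 hn.2.1
        rw [mem_coe, mem_filter, mem_Icc]
        refine ⟨⟨?_, ?_⟩, ?_⟩
        · show 1 ≤ n / W + 1 - X / W
          omega
        · show n / W + 1 - X / W ≤ Y / W + 2
          omega
        · intro t ht
          show (b' + W * (n / W + 1 - X / W) + t).Prime
          rw [h5]
          exact hn.2.2 t ht
      · intro n hn n' hn' h
        rw [mem_coe, mem_filter] at hn hn'
        obtain ⟨_, _, h5⟩ := key n hn.1 hn.2.1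
        obtain ⟨_, _, h6⟩ := key n' hn'.1 hn'.2.1
        simp only at h
        rw [← h5, ← h6, h]
    exact_mod_cast h2

/-- **the binomial moment, with all parameters** -/
theorem binom_det (k w H X Y Q : ℕ) (hw : 2 ≤ w) (hkw : k ^ 3 ≤ w) (hH : 1 ≤ H)
    (hQ1 : 3 ≤ Q) (hQM : Q ^ 2 ≤ Y / Wp w + 2) (hHQ : H ≤ Q) (hQX : Q + 2 * Wp w ≤ X) (hwX : w < X) :
    ∑ n ∈ Ioc X (X + Y), ((pc n H).choose k : ℝ) ≤
      (Wp w : ℝ) * (12 * ((Y / Wp w + 2 : ℕ) : ℝ) * Bk k w Q *
        ((kap w * H + Wp w) ^ k / k.factorial + (H : ℝ) ^ k * (Real.exp ((2 * k ^ 3 : ℕ) / w) - 1))) := by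
  classical
  obtain ⟨W, hW⟩ : ∃ W, W = Wp w := ⟨_, rfl⟩
  have hW0 : 0 < W := by rw [hW]; exact Wp_pos w
  -- count by classes
  have h1 : ∑ n ∈ Ioc X (X + Y), ((pc n H).choose k : ℝ) =
      ∑ b ∈ range W, ∑ T ∈ powersetCard k (Icc 1 H),
        (((Ioc X (X + Y)).filter (fun n => n % W = b ∧ ∀ t ∈ T, (n + t).Prime)).card : ℝ) := by
    calc ∑ n ∈ Ioc X (X + Y), ((pc n H).choose k : ℝ)
        = ∑ n ∈ Ioc X (X + Y), ∑ T ∈ powersetCard k (Icc 1 H), if ∀ t ∈ T, (n + t).Prime then (1 : ℝ) else 0 :=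
          Finset.sum_congr rfl fun n _ => pc_choose n H k
      _ = ∑ b ∈ range W, ∑ n ∈ (Ioc X (X + Y)).filter (fun n => n % W = b),
            ∑ T ∈ powersetCard k (Icc 1 H), if ∀ t ∈ T, (n + t).Prime then (1 : ℝ) else 0 := by
          symm
          apply Finset.sum_fiberwise_of_maps_to
          intro n _
          exact mem_range.2 (Nat.mod_lt _ hW0)
      _ = _ := by
          refine Finset.sum_congr rfl fun b _ => ?_
          rw [Finset.sum_comm]
          refine Finset.sum_congr rfl fun T _ => ?_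
          rw [← Finset.sum_filter, Finset.sum_const, nsmul_eq_mul, mul_one, Finset.filter_filter]
  rw [h1]
  have h2 : ∀ b ∈ range W, ∑ T ∈ powersetCard k (Icc 1 H),
      (((Ioc X (X + Y)).filter (fun n => n % W = b ∧ ∀ t ∈ T, (n + t).Prime)).card : ℝ) ≤
      12 * ((Y / W + 2 : ℕ) : ℝ) * Bk k w Q *
        ((kap w * H + W) ^ k / k.factorial + (H : ℝ) ^ k * (Real.exp ((2 * k ^ 3 : ℕ) / w) - 1)) := by
    intro b _
    have hsub : powersetCard k (Rb w H b) ⊆ powersetCard k (Icc 1 H) :=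
      Finset.powersetCard_mono (Finset.filter_subset _ _)
    have h3 : ∑ T ∈ powersetCard k (Icc 1 H),
        (((Ioc X (X + Y)).filter (fun n => n % W = b ∧ ∀ t ∈ T, (n + t).Prime)).card : ℝ) =
        ∑ T ∈ powersetCard k (Rb w H b),
        (((Ioc X (X + Y)).filter (fun n => n % W = b ∧ ∀ t ∈ T, (n + t).Prime)).card : ℝ) := by
      symm
      apply Finset.sum_subset hsub
      intro T hT hT2
      rw [mem_powersetCard] at hT hT2
      have h4 : ¬ T ⊆ Rb w H b := fun h => hT2 ⟨h, hT.2⟩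
      obtain ⟨t, ht, htn⟩ := Finset.not_subset.1 h4
      unfold Rb at htn
      rw [mem_filter, not_and] at htn
      have h5 := htn (hT.1 ht)
      obtain ⟨p, hp, hpW, hpb⟩ := Nat.Prime.not_coprime_iff_dvd.1 h5
      have hpw : p ≤ w := by
        unfold Wp at hpW
        obtain ⟨q, hq, hpq⟩ := (hp.prime.dvd_finset_prod_iff _).1 hpW
        rw [mem_filter, mem_Icc] at hq
        rw [(Nat.prime_dvd_prime_iff_eq hp hq.2).1 hpq]
        exact hq.1.2
      rw [Finset.filter_eq_empty_iff.2, Finset.card_empty, Nat.cast_zero]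
      rintro n hn ⟨h6, h7⟩
      have h8 := h7 t ht
      have h9 : p ∣ n + t := by
        have h10 : n = W * (n / W) + b := by rw [← h6]; exact (Nat.div_add_mod n W).symm
        rw [h10, add_assoc]
        exact dvd_add ((hW ▸ hpW).mul_right _) hpb
      have h10 := (Nat.prime_dvd_prime_iff_eq hp h8).1 h9
      rw [mem_Ioc] at hn
      omega
    rw [h3]
    have hB := Bk_nonneg k w Q
    calc ∑ T ∈ powersetCard k (Rb w H b),
        (((Ioc X (X + Y)).filter (fun n => n % W = b ∧ ∀ t ∈ T, (n + t).Prime)).card : ℝ)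
        ≤ ∑ T ∈ powersetCard k (Rb w H b), 12 * ((Y / W + 2 : ℕ) : ℝ) * FT k w H T * Bk k w Q := by
          refine Finset.sum_le_sum fun T hT => ?_
          have := one_class k w H X Y Q b T hw (hsub hT) hQ1 hQM hHQ hQX
          rw [← hW] at this
          exact this
      _ = 12 * ((Y / W + 2 : ℕ) : ℝ) * Bk k w Q * ∑ T ∈ powersetCard k (Rb w H b), FT k w H T := by
          rw [Finset.mul_sum]
          exact Finset.sum_congr rfl fun T _ => by ring
      _ ≤ _ := by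
          apply mul_le_mul_of_nonneg_left _ (by positivity)
          rw [hW]
          exact FT_rough k w H b (by omega) hkw hH
  rw [← hW]
  refine (Finset.sum_le_sum h2).trans (le_of_eq ?_)
  rw [Finset.sum_const, Finset.card_range, nsmul_eq_mul]

/-- lower bound for the density of the integers without small prime factors -/
theorem kap_lower : ∃ C : ℝ, 0 < C ∧ ∀ w : ℕ, 3 ≤ w → (kap w)⁻¹ ≤ C * Real.log w := by
  obtain ⟨C, hC⟩ := Pool.Agent.Erdos456.Mert.mertens_inv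
  refine ⟨Real.exp (|C| + 4), Real.exp_pos _, fun w hw => ?_⟩
  have hw0 : (0 : ℝ) < w := by exact_mod_cast (by omega : 0 < w)
  have hw1 : (1 : ℝ) < w := by exact_mod_cast (by omega : 1 < w)
  have hlog : 0 < Real.log w := Real.log_pos hw1
  have h1 := hC w hw
  have h2 : (kap w)⁻¹ = ∏ p ∈ (Icc 1 w).filter Nat.Prime, (1 - 1 / (p : ℝ))⁻¹ := by
    unfold kap
    rw [Finset.prod_inv_distrib]
  rw [h2]
  have h3 : ∏ p ∈ (Icc 1 w).filter Nat.Prime, (1 - 1 / (p : ℝ))⁻¹ ≤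
      Real.exp (∑ p ∈ (Icc 1 w).filter Nat.Prime, (1 / (p : ℝ) + 2 * ((p : ℝ) ^ 2)⁻¹)) := by
    rw [Real.exp_sum]
    apply Finset.prod_le_prod
    · intro p hp
      rw [mem_filter] at hp
      have h4 : (2 : ℝ) ≤ p := by exact_mod_cast hp.2.two_le
      have h5 : 0 ≤ 1 - 1 / (p : ℝ) := by
        rw [sub_nonneg, div_le_one (by linarith)]
        linarith
      exact inv_nonneg.2 h5
    · intro p hp
      rw [mem_filter] at hp
      have h4 : (2 : ℝ) ≤ p := by exact_mod_cast hp.2.two_le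
      have h5 : (1 - 1 / (p : ℝ))⁻¹ = 1 + 1 / ((p : ℝ) - 1) := by
        have h6 : (p : ℝ) - 1 ≠ 0 := by linarith
        have h7 : (p : ℝ) ≠ 0 := by linarith
        have h8 : 1 - 1 / (p : ℝ) = (p - 1) / p := by field_simp
        rw [h8, inv_div]
        field_simp
        ring
      rw [h5]
      have h6 : 1 / ((p : ℝ) - 1) ≤ 1 / (p : ℝ) + 2 * ((p : ℝ) ^ 2)⁻¹ := by
        rw [← div_eq_mul_inv, div_add_div _ _ (by linarith) (by positivity), div_le_div_iff₀ (by linarith) (by positivity)]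
        nlinarith [mul_pos (by linarith : (0 : ℝ) < p) (by linarith : (0 : ℝ) < p), sq_nonneg ((p : ℝ))]
      have h7 := Real.add_one_le_exp (1 / (p : ℝ) + 2 * ((p : ℝ) ^ 2)⁻¹)
      linarith
  refine h3.trans ?_
  have h4 : ∑ p ∈ (Icc 1 w).filter Nat.Prime, 2 * ((p : ℝ) ^ 2)⁻¹ ≤ 4 := by
    calc ∑ p ∈ (Icc 1 w).filter Nat.Prime, 2 * ((p : ℝ) ^ 2)⁻¹ ≤ ∑ p ∈ Ioc 1 w, 2 * ((p : ℝ) ^ 2)⁻¹ := by
          apply Finset.sum_le_sum_of_subset_of_nonneg
          · intro p hp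
            rw [mem_filter, mem_Icc] at hp
            rw [mem_Ioc]
            exact ⟨hp.2.one_lt, hp.1.2⟩
          · intros; positivity
      _ = 2 * ∑ p ∈ Ioc 1 w, ((p : ℝ) ^ 2)⁻¹ := by rw [Finset.mul_sum]
      _ ≤ 4 := by
          have h5 := sum_Ioc_inv_sq_le_sub (α := ℝ) (one_ne_zero) (by omega : 1 ≤ w)
          have h6 : (0 : ℝ) ≤ (w : ℝ)⁻¹ := by positivity
          push_cast at h5
          rw [inv_one] at h5
          linarith
  have h5 : ∑ p ∈ (Icc 1 w).filter Nat.Prime, 1 / (p : ℝ) ≤ Real.log (Real.log w) + |C| := by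
    have h6 : ∑ p ∈ (Icc 1 w).filter Nat.Prime, 1 / (p : ℝ) - Real.log (Real.log w) ≤ C :=
      (le_abs_self _).trans h1
    have := le_abs_self C
    linarith
  rw [Finset.sum_add_distrib]
  calc Real.exp (∑ p ∈ (Icc 1 w).filter Nat.Prime, 1 / (p : ℝ) + ∑ p ∈ (Icc 1 w).filter Nat.Prime, 2 * ((p : ℝ) ^ 2)⁻¹)
      ≤ Real.exp ((|C| + 4) + Real.log (Real.log w)) := Real.exp_le_exp.2 (by linarith)
    _ = Real.exp (|C| + 4) * Real.log w := by rw [Real.exp_add, Real.exp_log hlog]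

/-- the choice of `w` -/
theorem exists_w (k : ℕ) : ∃ w : ℕ, 3 ≤ w ∧ k ^ 3 ≤ w ∧
    Real.exp (4 * (k : ℝ) ^ 2 / w) * (1 + k.factorial * ((kap w)⁻¹) ^ k * (Real.exp ((2 * k ^ 3 : ℕ) / w) - 1)) ≤ 2 := by
  obtain ⟨C, hC0, hC⟩ := kap_lower
  have tN : Tendsto (fun w : ℕ => (w : ℝ)) atTop atTop := tendsto_natCast_atTop_atTop
  -- log^k w / w → 0
  have h1 : ∀ᶠ w : ℕ in atTop, k.factorial * (C * Real.log w) ^ k * (2 * ((2 * k ^ 3 : ℕ) / w)) ≤ 1 / 4 := by
    obtain ⟨D, hD⟩ : ∃ D : ℝ, D = k.factorial * C ^ k * (2 * (2 * k ^ 3 : ℕ)) + 1 := ⟨_, rfl⟩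
    have hD0 : 0 < D := by rw [hD]; positivity
    have h2 := ((isLittleO_log_rpow_rpow_atTop (k : ℝ) (by norm_num : (0 : ℝ) < 1)).comp_tendsto tN).bound
      (by positivity : (0 : ℝ) < 1 / (4 * D))
    filter_upwards [h2, eventually_ge_atTop 3] with w h3 hw3
    have hw1 : (1 : ℝ) ≤ w := by exact_mod_cast (by omega : 1 ≤ w)
    have hw0 : (0 : ℝ) < w := by linarith
    have hlog : 0 ≤ Real.log (w : ℝ) := Real.log_nonneg hw1
    simp only [Function.comp_def] at h3
    rw [Real.norm_of_nonneg (by positivity), Real.norm_of_nonneg (by positivity), Real.rpow_natCast, Real.rpow_one] at h3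
    calc (k.factorial : ℝ) * (C * Real.log w) ^ k * (2 * ((2 * k ^ 3 : ℕ) / w))
        = (k.factorial * C ^ k * (2 * (2 * k ^ 3 : ℕ))) * Real.log w ^ k / w := by
          rw [mul_pow]; ring
      _ ≤ D * Real.log w ^ k / w := by
          gcongr
          rw [hD]
          linarith
      _ ≤ D * (1 / (4 * D) * w) / w := by gcongr
      _ = 1 / 4 := by field_simp
  have h2 : ∀ᶠ w : ℕ in atTop, ((2 * k ^ 3 : ℕ) : ℝ) / w ≤ 1 := by
    filter_upwards [tN.eventually_ge_atTop ((2 * k ^ 3 : ℕ) : ℝ), eventually_ge_atTop 1] with w h3 hw1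
    have hw0 : (0 : ℝ) < w := by exact_mod_cast hw1
    rw [div_le_one hw0]
    exact h3
  have h3 : ∀ᶠ w : ℕ in atTop, 4 * (k : ℝ) ^ 2 / w ≤ 1 / 4 := by
    filter_upwards [tN.eventually_ge_atTop (16 * (k : ℝ) ^ 2), eventually_ge_atTop 1] with w h3 hw1
    have hw0 : (0 : ℝ) < w := by exact_mod_cast hw1
    rw [div_le_iff₀ hw0]
    linarith
  obtain ⟨w, hw⟩ := ((h1.and h2).and (h3.and (eventually_ge_atTop (3 + k ^ 3)))).exists
  obtain ⟨⟨h4, h5⟩, h6, h7⟩ := hw
  refine ⟨w, by omega, by omega, ?_⟩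
  have h8 : Real.exp ((2 * k ^ 3 : ℕ) / w) ≤ 1 + 2 * ((2 * k ^ 3 : ℕ) / w) := exp_le_two (by positivity) h5
  have h9 : Real.exp (4 * (k : ℝ) ^ 2 / w) ≤ 1 + 2 * (4 * (k : ℝ) ^ 2 / w) := exp_le_two (by positivity) (by linarith)
  have h10 := hC w (by omega)
  have hk0 : 0 ≤ (kap w)⁻¹ := inv_nonneg.2 (kap_pos w).le
  have h11 : (k.factorial : ℝ) * ((kap w)⁻¹) ^ k * (Real.exp ((2 * k ^ 3 : ℕ) / w) - 1) ≤ 1 / 4 := by
    have h12 : 0 ≤ Real.exp ((2 * k ^ 3 : ℕ) / w) - 1 := by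
      have := Real.one_le_exp (show (0 : ℝ) ≤ ((2 * k ^ 3 : ℕ) : ℝ) / w by positivity)
      linarith
    calc (k.factorial : ℝ) * ((kap w)⁻¹) ^ k * (Real.exp ((2 * k ^ 3 : ℕ) / w) - 1) ≤
        (k.factorial : ℝ) * (C * Real.log w) ^ k * (2 * ((2 * k ^ 3 : ℕ) / w)) := by
          gcongr
          linarith
      _ ≤ 1 / 4 := h4
  have h12 : 0 ≤ (k.factorial : ℝ) * ((kap w)⁻¹) ^ k * (Real.exp ((2 * k ^ 3 : ℕ) / w) - 1) := by
    have h13 : 0 ≤ Real.exp ((2 * k ^ 3 : ℕ) / w) - 1 := by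
      have := Real.one_le_exp (show (0 : ℝ) ≤ ((2 * k ^ 3 : ℕ) : ℝ) / w by positivity)
      linarith
    positivity
  have h13 := Real.exp_pos (4 * (k : ℝ) ^ 2 / w)
  calc Real.exp (4 * (k : ℝ) ^ 2 / w) * (1 + k.factorial * ((kap w)⁻¹) ^ k * (Real.exp ((2 * k ^ 3 : ℕ) / w) - 1))
      ≤ (3 / 2) * (5 / 4) := by
        apply mul_le_mul (by linarith) (by linarith) (by linarith) (by norm_num)
    _ ≤ 2 := by norm_num

end Pool.Agent.U26Z.MX
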